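import Pool.Agent.Helper86.TF.Num

/-!
# Path and cycle counts in complete bipartite graphs
-/

namespace Pool.Agent.Helper86.TF

open SimpleGraph Finset Pool.Agent.Helper72.Cyc

variable {V : Type*}

/-- The complete bipartite graph given by a 2-colouring. -/
def Kb (s : V → Bool) : SimpleGraph V where
  Adj x y := s x ≠ s y
  symm := ⟨fun _ _ h => Ne.symm h⟩
  loopless := ⟨fun _ h => h rfl⟩

lemma kb_adj (s : V → Bool) (x y : V) : (Kb s).Adj x y ↔ s x ≠ s y := Iff.rfl

open scoped Classical in
lemma pa_mono (G H : SimpleGraph V) (S : Finset V) (h : ∀ a ∈ S, ∀ b ∈ S, G.Adj a b → H.Adj a b)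
    (j : ℕ) : ∀ (U : Finset V) (x y : V), U ⊆ S → x ∈ S → y ∈ S → pa G j U x y ≤ pa H j U x y := by
  induction j with
  | zero =>
    intro U x y _ hx hy
    rw [pa, pa]
    by_cases hG : G.Adj x y
    · rw [if_pos hG, if_pos (h x hx y hy hG)]
    · rw [if_neg hG]; exact Nat.zero_le _
  | succ j ih =>
    intro U x y hU hx hy
    rw [pa, pa]
    calc ∑ v ∈ U with G.Adj x v, pa G j (U.erase v) v y
        ≤ ∑ v ∈ U with G.Adj x v, pa H j (U.erase v) v y := by
          apply Finset.sum_le_sum
          intro v hv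
          rw [Finset.mem_filter] at hv
          exact ih _ _ _ ((Finset.erase_subset _ _).trans hU) (hU hv.1) hy
      _ ≤ _ := by
          apply Finset.sum_le_sum_of_subset
          intro v hv
          rw [Finset.mem_filter] at hv ⊢
          exact ⟨hv.1, h x hx v (hU hv.1) hv.2⟩

lemma pc_mono (G H : SimpleGraph V) (S : Finset V) (h : ∀ a ∈ S, ∀ b ∈ S, G.Adj a b → H.Adj a b)
    (U : Finset V) (x y : V) (hU : U ⊆ S) (hx : x ∈ S) (hy : y ∈ S) :
    pc G U x y ≤ pc H U x y := by
  rw [pc, pc]
  apply Finset.sum_le_sum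
  intro j _
  exact pa_mono G H S h j U x y hU hx hy

open scoped Classical in
lemma zz_mono (G H : SimpleGraph V) (S : Finset V) (h : ∀ a ∈ S, ∀ b ∈ S, G.Adj a b → H.Adj a b)
    (v : V) (hv : v ∈ S) : zz G S v ≤ zz H S v := by
  rw [zz, zz]
  calc _ ≤ ∑ x ∈ S.erase v with G.Adj v x, ∑ y ∈ (S.erase v).erase x with H.Adj y v,
      pc H (((S.erase v).erase x).erase y) x y := by
        apply Finset.sum_le_sum
        intro x hx
        rw [Finset.mem_filter, Finset.mem_erase] at hx
        calc _ ≤ ∑ y ∈ (S.erase v).erase x with G.Adj y v,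
            pc H (((S.erase v).erase x).erase y) x y := by
              apply Finset.sum_le_sum
              intro y hy
              rw [Finset.mem_filter, Finset.mem_erase, Finset.mem_erase] at hy
              apply pc_mono G H S h
              · exact ((Finset.erase_subset _ _).trans (Finset.erase_subset _ _)).trans
                  (Finset.erase_subset _ _)
              · exact hx.1.2
              · exact hy.1.2.2
          _ ≤ _ := by
              apply Finset.sum_le_sum_of_subset
              intro y hy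
              rw [Finset.mem_filter] at hy ⊢
              refine ⟨hy.1, h y ?_ v hv hy.2⟩
              exact Finset.mem_of_mem_erase (Finset.mem_of_mem_erase hy.1)
    _ ≤ _ := by
        apply Finset.sum_le_sum_of_subset
        intro x hx
        rw [Finset.mem_filter] at hx ⊢
        exact ⟨hx.1, h v hv x (Finset.mem_of_mem_erase hx.1) hx.2⟩

/-- Vertices of `U` with colour `b`. -/
def cl (s : V → Bool) (U : Finset V) (b : Bool) : Finset V := {u ∈ U | s u = b}

lemma mem_cl {s : V → Bool} {U : Finset V} {b : Bool} {u : V} :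
    u ∈ cl s U b ↔ u ∈ U ∧ s u = b := by rw [cl, Finset.mem_filter]

open scoped Classical in
lemma cl_erase_same (s : V → Bool) (U : Finset V) (b : Bool) (v : V) (hv : v ∈ U) (hb : s v = b) :
    #(cl s (U.erase v) b) = #(cl s U b) - 1 := by
  have : cl s (U.erase v) b = (cl s U b).erase v := by
    ext u
    rw [mem_cl, Finset.mem_erase, Finset.mem_erase, mem_cl]
    tauto
  rw [this, Finset.card_erase_of_mem (mem_cl.2 ⟨hv, hb⟩)]

open scoped Classical in
lemma cl_erase_diff (s : V → Bool) (U : Finset V) (b : Bool) (v : V) (hb : s v ≠ b) :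
    #(cl s (U.erase v) b) = #(cl s U b) := by
  have : cl s (U.erase v) b = cl s U b := by
    ext u
    rw [mem_cl, Finset.mem_erase, mem_cl]
    constructor
    · rintro ⟨⟨-, h1⟩, h2⟩; exact ⟨h1, h2⟩
    · rintro ⟨h1, h2⟩
      refine ⟨⟨?_, h1⟩, h2⟩
      rintro rfl
      exact hb h2
  rw [this]

lemma bne {a b : Bool} : a ≠ b ↔ b = !a := by cases a <;> cases b <;> decide

open scoped Classical in
lemma filter_kb (s : V → Bool) (U : Finset V) (x : V) :
    ({v ∈ U | (Kb s).Adj x v} : Finset V) = cl s U (!(s x)) := by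
  ext v
  rw [Finset.mem_filter, mem_cl, kb_adj, bne]

open scoped Classical in
lemma filter_kb' (s : V → Bool) (U : Finset V) (x : V) :
    ({v ∈ U | (Kb s).Adj v x} : Finset V) = cl s U (!(s x)) := by
  ext v
  rw [Finset.mem_filter, mem_cl, kb_adj, ne_comm, bne]

open scoped Classical in
lemma pc_kb (s : V → Bool) (n : ℕ) : ∀ (U : Finset V) (x y : V), #U ≤ n → s x = s y →
    pc (Kb s) U x y = q #(cl s U (!(s x))) #(cl s U (s x)) := by
  induction n using Nat.strong_induction_on with
  | _ n ih =>
    intro U x y hU hxy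
    rw [pc_two, filter_kb]
    have e0 : ¬ (Kb s).Adj x y := fun h => h hxy
    rw [if_neg e0, zero_add]
    have e1 : ∑ v ∈ cl s U (!(s x)), (if (Kb s).Adj v y then 1 else 0) =
        #(cl s U (!(s x))) := by
      rw [Finset.card_eq_sum_ones]
      apply Finset.sum_congr rfl
      intro v hv
      rw [mem_cl] at hv
      rw [if_pos]
      rw [kb_adj, hv.2, ← hxy]
      cases s x <;> decide
    have e2 : ∑ v ∈ cl s U (!(s x)), ∑ w ∈ U.erase v with (Kb s).Adj v w,
        pc (Kb s) ((U.erase v).erase w) w y =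
        #(cl s U (!(s x))) * (#(cl s U (s x)) *
          q (#(cl s U (!(s x))) - 1) (#(cl s U (s x)) - 1)) := by
      rw [← smul_eq_mul, ← Finset.sum_const]
      apply Finset.sum_congr rfl
      intro v hv
      rw [mem_cl] at hv
      have hvx : (!(s v)) = s x := by rw [hv.2]; cases s x <;> rfl
      have hvne : s v ≠ s x := by rw [hv.2]; cases s x <;> decide
      rw [filter_kb, hvx]
      have e3 : #(cl s (U.erase v) (s x)) = #(cl s U (s x)) := cl_erase_diff s U _ v hvne
      rw [← e3, ← smul_eq_mul, ← Finset.sum_const]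
      apply Finset.sum_congr rfl
      intro w hw
      rw [mem_cl] at hw
      have c1 := Finset.card_erase_add_one hv.1
      have c2 := Finset.card_erase_add_one hw.1
      rw [ih (n - 1) (by omega) ((U.erase v).erase w) w y (by omega) (hw.2.trans hxy)]
      rw [hw.2]
      rw [cl_erase_diff s (U.erase v) (!(s x)) w (by rw [hw.2]; cases s x <;> decide)]
      rw [cl_erase_same s U (!(s x)) v hv.1 hv.2]
      rw [cl_erase_same s (U.erase v) (s x) w hw.1 hw.2]
    rw [e1, e2]
    conv_rhs => rw [q_eq]
    ring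

open scoped Classical in
lemma zz_kb (s : V → Bool) (S : Finset V) (v : V) (hv : v ∈ S) :
    zz (Kb s) S v = Q #(cl s S (!(s v))) (#(cl s S (s v)) - 1) := by
  rw [zz, filter_kb]
  have hne : s v ≠ !(s v) := by cases s v <;> decide
  have e1 : ∀ x ∈ cl s (S.erase v) (!(s v)),
      ∑ y ∈ (S.erase v).erase x with (Kb s).Adj y v,
        pc (Kb s) (((S.erase v).erase x).erase y) x y =
      (#(cl s S (!(s v))) - 1) * q (#(cl s S (s v)) - 1) (#(cl s S (!(s v))) - 2) := by
    intro x hx
    rw [mem_cl] at hx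
    rw [filter_kb']
    have c1 : #(cl s ((S.erase v).erase x) (!(s v))) = #(cl s S (!(s v))) - 1 := by
      rw [cl_erase_same s (S.erase v) _ x hx.1 hx.2, cl_erase_diff s S _ v hne]
    rw [← c1, ← smul_eq_mul, ← Finset.sum_const]
    apply Finset.sum_congr rfl
    intro y hy
    rw [mem_cl] at hy
    rw [pc_kb s _ _ x y le_rfl (by rw [hx.2, hy.2])]
    have hx' : (!(s x)) = s v := by rw [hx.2]; cases s v <;> rfl
    rw [hx', hx.2]
    rw [cl_erase_diff s ((S.erase v).erase x) (s v) y (by rw [hy.2]; exact hne.symm)]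
    rw [cl_erase_diff s (S.erase v) (s v) x (by rw [hx.2]; exact hne.symm)]
    rw [cl_erase_same s S (s v) v hv rfl]
    rw [cl_erase_same s ((S.erase v).erase x) _ y hy.1 hy.2, c1]
    rw [Nat.sub_sub]
  rw [Finset.sum_congr rfl e1, Finset.sum_const, cl_erase_diff s S _ v hne, smul_eq_mul, Q_eq,
    mul_assoc]

open scoped Classical in
lemma nc_empty [Fintype V] (G : SimpleGraph V) : nc G (∅ : Finset V) = 0 := by
  rw [nc]
  apply Finset.sum_eq_zero
  intro k hk
  rw [Finset.mem_Icc] at hk
  rw [cyc, Finset.card_eq_zero]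
  apply Finset.filter_eq_empty_iff.2
  intro H _
  rintro ⟨⟨e⟩, h2⟩
  have v0 : Fin k := ⟨0, by omega⟩
  exact absurd (h2 _ (e v0).2) (Finset.notMem_empty _)

lemma cl_card_add (s : V → Bool) (S : Finset V) (b : Bool) :
    #(cl s S b) + #(cl s S (!b)) = #S := by
  have h := Finset.card_filter_add_card_filter_not (s := S) (fun u => s u = b)
  rw [← h, cl, cl]
  congr 2
  ext u
  rw [Finset.mem_filter, Finset.mem_filter]
  constructor
  · rintro ⟨h1, h2⟩
    refine ⟨h1, ?_⟩
    rw [h2]; cases b <;> decide
  · rintro ⟨h1, h2⟩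
    refine ⟨h1, ?_⟩
    have : b ≠ s u := fun h => h2 h.symm
    exact bne.1 this

open scoped Classical in
/-- The number of cycles of a complete bipartite graph. -/
lemma nc_kb [Fintype V] (s : V → Bool) (n : ℕ) : ∀ (S : Finset V), #S = n → ∀ N, n ≤ N →
    (2 * nc (Kb s) S : ℚ) = hh N #(cl s S true) #(cl s S false) := by
  induction n with
  | zero =>
    intro S hS N _
    have : S = ∅ := Finset.card_eq_zero.1 hS
    subst this
    rw [nc_empty]
    have : #(cl s (∅ : Finset V) true) = 0 := by rw [cl]; simp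
    rw [this, hh_zero]
    simp
  | succ n ih =>
    intro S hS N hN
    obtain ⟨v, hv⟩ : S.Nonempty := Finset.card_pos.1 (by omega)
    have h1 := nc_rec (G := Kb s) S v hv
    have h2 : (2 * nc (Kb s) S : ℚ) = 2 * nc (Kb s) (S.erase v) + zz (Kb s) S v := by
      exact_mod_cast h1
    have c1 := Finset.card_erase_add_one hv
    have h3 := ih (S.erase v) (by omega) N (by omega)
    rw [h2, h3, zz_kb s S v hv]
    have hpos : 0 < #(cl s S (s v)) := Finset.card_pos.2 ⟨v, mem_cl.2 ⟨hv, rfl⟩⟩
    have hadd := cl_card_add s S (s v)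
    cases hsv : s v with
    | true =>
      rw [hsv] at hpos hadd
      rw [cl_erase_same s S true v hv hsv, cl_erase_diff s S false v (by rw [hsv]; decide)]
      obtain ⟨a, ha⟩ : ∃ a, #(cl s S true) = a + 1 := ⟨#(cl s S true) - 1, by omega⟩
      have e1 : (!true) = false := rfl
      rw [e1] at hadd ⊢
      rw [ha, Nat.add_sub_cancel, hh_symm N (a + 1), hh_symm N a, hh_succ N _ a (by omega)]
    | false =>
      rw [hsv] at hpos hadd
      rw [cl_erase_same s S false v hv hsv, cl_erase_diff s S true v (by rw [hsv]; decide)]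
      obtain ⟨a, ha⟩ : ∃ a, #(cl s S false) = a + 1 := ⟨#(cl s S false) - 1, by omega⟩
      have e1 : (!false) = true := rfl
      rw [e1] at hadd ⊢
      rw [ha, Nat.add_sub_cancel, hh_succ N _ a (by omega)]

end Pool.Agent.Helper86.TF
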