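import Pool.Agent.Helper86.TF.Path

/-!
# Path counts in triangle-free graphs
-/

namespace Pool.Agent.Helper86.TF

open SimpleGraph Finset Pool.Agent.Helper72.Cyc

variable {V : Type*} {G : SimpleGraph V}

/-- Path bound for an odd number `2k+1` of interior vertices. -/
def TT : ℕ → ℕ
  | 0 => 1
  | k + 1 => (k + 2) * (1 + (k + 1) * TT k)

/-- Path bound for an even number `2k` of interior vertices. -/
def EE : ℕ → ℕ
  | 0 => 1
  | 1 => 2
  | 2 => 9
  | k + 3 => (k + 3) * (1 + (k + 3) * EE (k + 2))

lemma TT_pos (k : ℕ) : 1 ≤ TT k := by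
  cases k with
  | zero => exact le_rfl
  | succ k => rw [TT]; nlinarith [Nat.zero_le ((k + 1) * TT k)]

lemma EE_pos (k : ℕ) : 1 ≤ EE k := by
  match k with
  | 0 => exact le_rfl
  | 1 => decide
  | 2 => decide
  | k + 3 => rw [EE]; nlinarith [Nat.zero_le ((k + 3) * EE (k + 2))]

lemma pc_empty (x y : V) : pc G (∅ : Finset V) x y ≤ 1 := by
  rw [pc_rec]
  simp only [Finset.filter_empty, Finset.sum_empty, add_zero]
  split_ifs <;> simp

open scoped Classical in
lemma card_nbr (hT : ∀ x y z, G.Adj x y → G.Adj y z → ¬ G.Adj x z) (U : Finset V) (x v : V)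
    (hxv : G.Adj x v) :
    #{w ∈ U.erase v | G.Adj v w} ≤ #U - #{v ∈ U | G.Adj x v} := by
  have h1 : #{w ∈ U.erase v | G.Adj v w} ≤ #(U \ {v ∈ U | G.Adj x v}) := by
    apply Finset.card_le_card
    intro w hw
    rw [Finset.mem_filter, Finset.mem_erase] at hw
    rw [Finset.mem_sdiff, Finset.mem_filter]
    exact ⟨hw.1.2, fun h => hT x v w hxv hw.2 h.2⟩
  rw [Finset.card_sdiff_of_subset (Finset.filter_subset _ _)] at h1
  exact h1

open scoped Classical in
lemma pc_two (U : Finset V) (x y : V) :
    pc G U x y = ((if G.Adj x y then 1 else 0) +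
      ∑ v ∈ U with G.Adj x v, (if G.Adj v y then 1 else 0)) +
      ∑ v ∈ U with G.Adj x v, ∑ w ∈ U.erase v with G.Adj v w,
        pc G ((U.erase v).erase w) w y := by
  rw [pc_rec, add_assoc, ← Finset.sum_add_distrib]
  congr 1
  apply Finset.sum_congr rfl
  intro v _
  rw [pc_rec]

open scoped Classical in
lemma first_le (hT : ∀ x y z, G.Adj x y → G.Adj y z → ¬ G.Adj x z) (U : Finset V) (x y : V) :
    (if G.Adj x y then 1 else 0) + ∑ v ∈ U with G.Adj x v, (if G.Adj v y then 1 else 0) ≤
      max 1 #{v ∈ U | G.Adj x v} := by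
  by_cases h : G.Adj x y
  · have : ∑ v ∈ U with G.Adj x v, (if G.Adj v y then 1 else 0) = 0 := by
      apply Finset.sum_eq_zero
      intro v hv
      rw [Finset.mem_filter] at hv
      rw [if_neg]
      intro h'
      exact hT x v y hv.2 h' h
    rw [this, if_pos h]
    exact le_max_left _ _
  · rw [if_neg h, zero_add]
    refine le_trans ?_ (le_max_right _ _)
    calc ∑ v ∈ U with G.Adj x v, (if G.Adj v y then 1 else 0)
        ≤ ∑ v ∈ U with G.Adj x v, 1 := by
          apply Finset.sum_le_sum
          intro v _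
          split_ifs <;> simp
      _ = _ := by simp

open scoped Classical in
lemma step (hT : ∀ x y z, G.Adj x y → G.Adj y z → ¬ G.Adj x z) (U : Finset V) (x y : V) (M : ℕ)
    (hM : ∀ v ∈ U, ∀ w ∈ U.erase v, pc G ((U.erase v).erase w) w y ≤ M) :
    pc G U x y ≤ max 1 #{v ∈ U | G.Adj x v} +
      #{v ∈ U | G.Adj x v} * ((#U - #{v ∈ U | G.Adj x v}) * M) := by
  rw [pc_two]
  apply Nat.add_le_add (first_le hT U x y)
  rw [← smul_eq_mul]
  apply Finset.sum_le_card_nsmul
  intro v hv
  rw [Finset.mem_filter] at hv
  refine le_trans (Finset.sum_le_card_nsmul _ _ M ?_) ?_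
  · intro w hw
    exact hM v hv.1 w (Finset.mem_filter.1 hw).1
  · rw [smul_eq_mul]
    exact Nat.mul_le_mul_right _ (card_nbr hT U x v hv.2)

lemma num_odd (k a T : ℕ) (hT : 1 ≤ T) (ha : a ≤ 2 * k + 3) :
    max 1 a + a * ((2 * k + 3 - a) * T) ≤ (k + 2) * (1 + (k + 1) * T) := by
  rcases Nat.eq_zero_or_pos a with rfl | hpos
  · simp
    nlinarith [Nat.zero_le ((k + 1) * T)]
  · rw [max_eq_right (by omega : 1 ≤ a)]
    obtain ⟨b, hb⟩ := Nat.exists_eq_add_of_le ha
    have e1 : 2 * k + 3 - a = b := by omega
    rw [e1]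
    zify
    have hb' : (b : ℤ) = 2 * k + 3 - a := by
      have : ((2 * k + 3 : ℕ) : ℤ) = ((a + b : ℕ) : ℤ) := by rw [hb]
      push_cast at this
      linarith
    rw [hb']
    have hT' : (1 : ℤ) ≤ T := by exact_mod_cast hT
    set t : ℤ := (a : ℤ) - (k + 2) with ht
    have ha' : (a : ℤ) = k + 2 + t := by rw [ht]; ring
    rw [ha']
    have h1 : 0 ≤ t * t + t := by
      rcases le_or_gt 0 t with h | h
      · positivity
      · nlinarith
    nlinarith [mul_le_mul_of_nonneg_left hT' h1]

lemma num_even (k a E : ℕ) (hE : 1 ≤ E) (ha : a ≤ 2 * k) (hk : 1 ≤ k) :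
    max 1 a + a * ((2 * k - a) * E) ≤ k * (1 + k * E) := by
  rcases Nat.eq_zero_or_pos a with rfl | hpos
  · simp
    nlinarith [Nat.zero_le (k * E)]
  · rw [max_eq_right (by omega : 1 ≤ a)]
    obtain ⟨b, hb⟩ := Nat.exists_eq_add_of_le ha
    have e1 : 2 * k - a = b := by omega
    rw [e1]
    zify
    have hb' : (b : ℤ) = 2 * k - a := by
      have : ((2 * k : ℕ) : ℤ) = ((a + b : ℕ) : ℤ) := by rw [hb]
      push_cast at this
      linarith
    rw [hb']
    have hE' : (1 : ℤ) ≤ E := by exact_mod_cast hE
    set t : ℤ := (a : ℤ) - k with ht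
    have ha' : (a : ℤ) = k + t := by rw [ht]; ring
    rw [ha']
    have h1 : t ≤ t * t := by
      rcases le_or_gt 1 t with h | h
      · nlinarith
      · nlinarith [sq_nonneg t]
    have h2 : t * t ≤ t * t * E := by nlinarith [mul_self_nonneg t]
    nlinarith

open scoped Classical in
lemma pc_odd (hT : ∀ x y z, G.Adj x y → G.Adj y z → ¬ G.Adj x z) (k : ℕ) :
    ∀ (U : Finset V) (x y : V), #U = 2 * k + 1 → pc G U x y ≤ TT k := by
  induction k with
  | zero =>
    intro U x y hU
    obtain ⟨u, rfl⟩ := Finset.card_eq_one.1 (by simpa using hU)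
    rw [pc_rec, Finset.filter_singleton]
    have he : pc G (({u} : Finset V).erase u) u y = if G.Adj u y then 1 else 0 := by
      rw [pc_rec]; simp
    show _ ≤ 1
    by_cases h1 : G.Adj x u
    · rw [if_pos h1, Finset.sum_singleton, he]
      by_cases h2 : G.Adj u y
      · rw [if_pos h2, if_neg (hT x u y h1 h2)]
      · rw [if_neg h2]; split_ifs <;> simp
    · rw [if_neg h1, Finset.sum_empty]; split_ifs <;> simp
  | succ k ih =>
    intro U x y hU
    have h1 := step hT U x y (TT k) (by
      intro v hv w hw
      apply ih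
      have c1 := Finset.card_erase_add_one hv
      have c2 := Finset.card_erase_add_one hw
      omega)
    refine h1.trans ?_
    rw [hU, TT]
    have hle : #{v ∈ U | G.Adj x v} ≤ 2 * k + 3 := by
      have := Finset.card_filter_le U (fun v => G.Adj x v)
      omega
    have h2 := num_odd k _ (TT k) (TT_pos k) hle
    have e1 : 2 * (k + 1) + 1 = 2 * k + 3 := by ring
    rw [e1]
    exact h2

open scoped Classical in
lemma pc_card_two (hT : ∀ x y z, G.Adj x y → G.Adj y z → ¬ G.Adj x z) (U : Finset V) (x y : V)
    (hU : #U = 2) : pc G U x y ≤ 2 := by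
  have h1 := step hT U x y 1 (by
    intro v hv w hw
    have c1 := Finset.card_erase_add_one hv
    have c2 := Finset.card_erase_add_one hw
    have : (U.erase v).erase w = ∅ := Finset.card_eq_zero.1 (by omega)
    rw [this]
    exact pc_empty w y)
  refine h1.trans ?_
  rw [hU]
  have hle : #{v ∈ U | G.Adj x v} ≤ 2 := by
    have := Finset.card_filter_le U (fun v => G.Adj x v)
    omega
  generalize #{v ∈ U | G.Adj x v} = a at hle
  interval_cases a <;> simp

open scoped Classical in
lemma pc_card_two' (hT : ∀ x y z, G.Adj x y → G.Adj y z → ¬ G.Adj x z) (U : Finset V) (x y : V)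
    (hU : #U = 2) (hxy : ¬ G.Adj x y) : pc G U x y ≤ #{v ∈ U | G.Adj x v} := by
  rw [pc_rec, if_neg hxy, zero_add]
  have := Finset.sum_le_card_nsmul ({v ∈ U | G.Adj x v}) (fun v => pc G (U.erase v) v y) 1 (by
    intro v hv
    rw [Finset.mem_filter] at hv
    have c1 := Finset.card_erase_add_one hv.1
    exact pc_odd hT 0 _ _ _ (by omega))
  simpa using this

open scoped Classical in
lemma term_le (hT : ∀ x y z, G.Adj x y → G.Adj y z → ¬ G.Adj x z) (U : Finset V) (x y v : V)
    (hU : #U = 4) (ha : #{v ∈ U | G.Adj x v} = 2) (hv : v ∈ U) (hxv : G.Adj x v) :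
    (if G.Adj v y then 1 else 0) + ∑ w ∈ U.erase v with G.Adj v w,
        pc G ((U.erase v).erase w) w y ≤ 4 := by
  have hW : #{w ∈ U.erase v | G.Adj v w} ≤ 2 := by
    have := card_nbr hT U x v hxv
    omega
  have hcard : ∀ w ∈ U.erase v, #((U.erase v).erase w) = 2 := by
    intro w hw
    have c1 := Finset.card_erase_add_one hv
    have c2 := Finset.card_erase_add_one hw
    omega
  have hsum2 : ∑ w ∈ U.erase v with G.Adj v w, pc G ((U.erase v).erase w) w y ≤
      #{w ∈ U.erase v | G.Adj v w} * 2 := by
    have := Finset.sum_le_card_nsmul ({w ∈ U.erase v | G.Adj v w})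
      (fun w => pc G ((U.erase v).erase w) w y) 2 (by
        intro w hw
        exact pc_card_two hT _ _ _ (hcard w (Finset.mem_filter.1 hw).1))
    simpa using this
  by_cases hvy : G.Adj v y
  · rw [if_pos hvy]
    by_cases h2 : #{w ∈ U.erase v | G.Adj v w} = 2
    · have hsum1 : ∑ w ∈ U.erase v with G.Adj v w, pc G ((U.erase v).erase w) w y ≤
          #{w ∈ U.erase v | G.Adj v w} * 1 := by
        have := Finset.sum_le_card_nsmul ({w ∈ U.erase v | G.Adj v w})
          (fun w => pc G ((U.erase v).erase w) w y) 1 (by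
            intro w hw
            rw [Finset.mem_filter] at hw
            have h3 := pc_card_two' hT ((U.erase v).erase w) w y (hcard w hw.1)
              (fun h => hT v w y hw.2 h hvy)
            refine h3.trans ?_
            obtain ⟨w', hw', hne⟩ := Finset.exists_mem_ne (s := {w ∈ U.erase v | G.Adj v w})
              (by rw [h2]; norm_num) w
            rw [Finset.mem_filter] at hw'
            have hsub : {u ∈ (U.erase v).erase w | G.Adj w u} ⊆
                ((U.erase v).erase w).erase w' := by
              intro u hu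
              rw [Finset.mem_filter] at hu
              refine Finset.mem_erase.2 ⟨?_, hu.1⟩
              rintro rfl
              exact hT v w u hw.2 hu.2 hw'.2
            have h4 := Finset.card_le_card hsub
            have h5 := Finset.card_erase_add_one (s := (U.erase v).erase w) (a := w')
              (Finset.mem_erase.2 ⟨hne, hw'.1⟩)
            have h6 := hcard w hw.1
            omega)
        simpa using this
      omega
    · omega
  · rw [if_neg hvy]
    omega

open scoped Classical in
lemma pc_card_four (hT : ∀ x y z, G.Adj x y → G.Adj y z → ¬ G.Adj x z) (U : Finset V) (x y : V)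
    (hU : #U = 4) : pc G U x y ≤ 9 := by
  by_cases ha : #{v ∈ U | G.Adj x v} = 2
  · by_cases hxy : G.Adj x y
    · rw [pc_two]
      have h1 : ∑ v ∈ U with G.Adj x v, (if G.Adj v y then 1 else 0) = 0 := by
        apply Finset.sum_eq_zero
        intro v hv
        rw [Finset.mem_filter] at hv
        rw [if_neg]
        intro h'
        exact hT x v y hv.2 h' hxy
      rw [h1, if_pos hxy]
      have h2 := Finset.sum_le_card_nsmul ({v ∈ U | G.Adj x v})
        (fun v => ∑ w ∈ U.erase v with G.Adj v w, pc G ((U.erase v).erase w) w y) 4 (by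
          intro v hv
          rw [Finset.mem_filter] at hv
          have := term_le hT U x y v hU ha hv.1 hv.2
          show ∑ w ∈ U.erase v with G.Adj v w, pc G ((U.erase v).erase w) w y ≤ 4
          omega)
      rw [ha] at h2
      simp only [smul_eq_mul] at h2
      omega
    · rw [pc_rec, if_neg hxy, zero_add]
      have h2 := Finset.sum_le_card_nsmul ({v ∈ U | G.Adj x v})
        (fun v => pc G (U.erase v) v y) 4 (by
          intro v hv
          rw [Finset.mem_filter] at hv
          have := term_le hT U x y v hU ha hv.1 hv.2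
          show pc G (U.erase v) v y ≤ 4
          rw [pc_rec]
          exact this)
      rw [ha] at h2
      simp only [smul_eq_mul] at h2
      omega
  · have h1 := step hT U x y 2 (by
      intro v hv w hw
      have c1 := Finset.card_erase_add_one hv
      have c2 := Finset.card_erase_add_one hw
      exact pc_card_two hT _ _ _ (by omega))
    refine h1.trans ?_
    rw [hU]
    have hle : #{v ∈ U | G.Adj x v} ≤ 4 := by
      have := Finset.card_filter_le U (fun v => G.Adj x v)
      omega
    generalize #{v ∈ U | G.Adj x v} = a at hle ha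
    interval_cases a <;> simp_all

open scoped Classical in
lemma pc_even (hT : ∀ x y z, G.Adj x y → G.Adj y z → ¬ G.Adj x z) (k : ℕ) :
    ∀ (U : Finset V) (x y : V), #U = 2 * k → pc G U x y ≤ EE k := by
  induction k using Nat.strong_induction_on with
  | _ k ih =>
    intro U x y hU
    match k, ih, hU with
    | 0, _, hU =>
      have : U = ∅ := Finset.card_eq_zero.1 (by omega)
      rw [this]; exact pc_empty x y
    | 1, _, hU => exact pc_card_two hT U x y (by omega)
    | 2, _, hU => exact pc_card_four hT U x y (by omega)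
    | k + 3, ih, hU =>
      have h1 := step hT U x y (EE (k + 2)) (by
        intro v hv w hw
        apply ih (k + 2) (by omega)
        have c1 := Finset.card_erase_add_one hv
        have c2 := Finset.card_erase_add_one hw
        omega)
      refine h1.trans ?_
      rw [hU, EE]
      exact num_even (k + 3) _ (EE (k + 2)) (EE_pos _) (by
        have := Finset.card_filter_le U (fun v => G.Adj x v)
        omega) (by omega)

end Pool.Agent.Helper86.TF
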