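import Pool.Agent.Helper86.TF.Uniq

/-!
# The maximum number of cycles in triangle-free graphs
-/

namespace Pool.Agent.Helper86.TF

open SimpleGraph Finset Pool.Agent.Helper72.Cyc

lemma triangle_free {V : Type*} {G : SimpleGraph V} (h : ((4 : ℕ) : ℕ∞) ≤ G.egirth) :
    ∀ x y z, G.Adj x y → G.Adj y z → ¬ G.Adj x z := by
  intro x y z hxy hyz hxz
  rw [le_egirth_iff] at h
  have h1 := h 0 ![x, y, z] (by
    intro i j hij
    fin_cases i <;> fin_cases j
    · rfl
    · exact absurd hij hxy.ne
    · exact absurd hij hxz.ne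
    · exact absurd hij hxy.ne.symm
    · rfl
    · exact absurd hij hyz.ne
    · exact absurd hij hxz.ne.symm
    · exact absurd hij hyz.ne.symm
    · rfl) (by
    intro i
    fin_cases i
    · exact hxy
    · exact hyz
    · exact hxz.symm)
  omega

lemma egirth_kb {V : Type*} (s : V → Bool) : ((4 : ℕ) : ℕ∞) ≤ (Kb s).egirth := by
  rw [le_egirth_iff]
  intro m f _ hadj
  by_contra hm
  have hm0 : m = 0 := by omega
  subst hm0
  have h0 : s (f 0) ≠ s (f 1) := hadj 0
  have h1 : s (f 1) ≠ s (f 2) := hadj 1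
  have h2 : s (f 2) ≠ s (f 0) := hadj 2
  revert h0 h1 h2
  generalize s (f 0) = a
  generalize s (f 1) = b
  generalize s (f 2) = c
  revert a b c
  decide

lemma card_lt (n : ℕ) : #(cl (fun i : Fin n => decide (i.val < n / 2)) Finset.univ true) =
    n / 2 := by
  have h1 : cl (fun i : Fin n => decide (i.val < n / 2)) Finset.univ true =
      Finset.univ.filter (fun i : Fin n => i.val < n / 2) := by
    ext i
    rw [mem_cl, Finset.mem_filter, decide_eq_true_iff]
  rw [h1, Fin.card_filter_val_lt]
  omega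

open scoped Classical in
lemma two_max (n : ℕ) : 2 * maxCycles n 4 = gg n := by
  apply le_antisymm
  · have h1 : maxCycles n 4 ≤ gg n / 2 := by
      rw [maxCycles]
      apply Finset.sup_le
      intro G hG
      rw [Finset.mem_filter] at hG
      have h2 := two_nc_le (triangle_free hG.2) n Finset.univ (by simp)
      rw [nc_univ] at h2
      omega
    omega
  · set s : Fin n → Bool := fun i => decide (i.val < n / 2) with hs
    have h1 : numCycles (Kb s) ≤ maxCycles n 4 := by
      rw [maxCycles]
      apply Finset.le_sup (f := numCycles)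
      rw [Finset.mem_filter]
      exact ⟨Finset.mem_univ _, egirth_kb s⟩
    have h2 := nc_kb s n Finset.univ (by simp) n le_rfl
    have h3 : #(cl s Finset.univ true) = n / 2 := card_lt n
    have h4 := cl_card_add s Finset.univ true
    have h5 : #(cl s Finset.univ false) = (n + 1) / 2 := by
      have e1 : (!true) = false := rfl
      rw [e1, h3] at h4
      have e2 : #(Finset.univ : Finset (Fin n)) = n := by simp
      omega
    rw [h3, h5, ← gg_eq n n le_rfl, nc_univ] at h2
    have h6 : 2 * numCycles (Kb s) = gg n := by exact_mod_cast h2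
    omega

lemma bip_eq (a b : ℕ) : completeBipartiteGraph (Fin a) (Fin b) =
    Kb (fun x : Fin a ⊕ Fin b => x.isLeft) := by
  ext x y
  rw [kb_adj]
  cases x <;> cases y <;> simp

lemma two_bip (a b : ℕ) (N : ℕ) (hN : a + b ≤ N) :
    (2 * numCycles (completeBipartiteGraph (Fin a) (Fin b)) : ℚ) = hh N a b := by
  classical
  rw [bip_eq, ← nc_univ]
  have h1 := nc_kb (fun x : Fin a ⊕ Fin b => x.isLeft) (a + b) Finset.univ (by simp) N hN
  rw [h1]
  congr 1
  · have : cl (fun x : Fin a ⊕ Fin b => x.isLeft) Finset.univ true =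
        (Finset.univ : Finset (Fin a)).map Function.Embedding.inl := by
      ext x
      rw [mem_cl]
      cases x <;> simp
    rw [this]; simp
  · have : cl (fun x : Fin a ⊕ Fin b => x.isLeft) Finset.univ false =
        (Finset.univ : Finset (Fin b)).map Function.Embedding.inr := by
      ext x
      rw [mem_cl]
      cases x <;> simp
    rw [this]; simp

lemma dec_iff : ∀ b c d : Bool, (decide (c = b) ≠ decide (d = b) ↔ c ≠ d) := by decide

lemma iso_of_good {n : ℕ} (G : SimpleGraph (Fin n)) (h : Good G Finset.univ n) :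
    Nonempty (G ≃g completeBipartiteGraph (Fin (n / 2)) (Fin ((n + 1) / 2))) := by
  classical
  obtain ⟨s, b, hs, h1, h2⟩ := h
  have c1 : Fintype.card {x // s x = b} = n / 2 := by
    rw [Fintype.card_subtype, ← h1, cl]
  have c2 : Fintype.card {x // ¬ s x = b} = (n + 1) / 2 := by
    rw [Fintype.card_subtype, ← h2, cl]
    congr 1
    ext x
    rw [Finset.mem_filter, Finset.mem_filter]
    constructor
    · rintro ⟨h3, h4⟩
      exact ⟨h3, bne.1 (fun h => h4 h.symm)⟩
    · rintro ⟨h3, h4⟩
      refine ⟨h3, ?_⟩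
      rw [h4]; cases b <;> decide
  let e1 : {x // s x = b} ≃ Fin (n / 2) := Fintype.equivFinOfCardEq c1
  let e2 : {x // ¬ s x = b} ≃ Fin ((n + 1) / 2) := Fintype.equivFinOfCardEq c2
  let e : Fin n ≃ Fin (n / 2) ⊕ Fin ((n + 1) / 2) :=
    (Equiv.sumCompl (fun x => s x = b)).symm.trans (Equiv.sumCongr e1 e2)
  have he : ∀ x, (e x).isLeft = decide (s x = b) := by
    intro x
    by_cases hx : s x = b
    · have : e x = Sum.inl (e1 ⟨x, hx⟩) := by
        show (Equiv.sumCongr e1 e2) ((Equiv.sumCompl (fun x => s x = b)).symm x) = _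
        rw [Equiv.sumCompl_symm_apply_of_pos (p := fun x => s x = b) hx]
        rfl
      rw [this]
      simp [hx]
    · have : e x = Sum.inr (e2 ⟨x, hx⟩) := by
        show (Equiv.sumCongr e1 e2) ((Equiv.sumCompl (fun x => s x = b)).symm x) = _
        rw [Equiv.sumCompl_symm_apply_of_neg (p := fun x => s x = b) hx]
        rfl
      rw [this]
      simp [hx]
  refine ⟨⟨e, ?_⟩⟩
  intro x y
  rw [bip_eq, kb_adj, he, he, hs x (Finset.mem_univ _) y (Finset.mem_univ _)]
  exact dec_iff b (s x) (s y)

/-- The maximum number of cycles of a triangle-free graph on `n` vertices, for every `n`. -/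
theorem main (n : ℕ) :
    (maxCycles n 4 : ℚ) = ∑ k ∈ Finset.Icc 2 (n / 2),
      ((n / 2).descFactorial k * ((n + 1) / 2).descFactorial k : ℚ) / (2 * k) ∧
    maxCycles n 4 = numCycles (completeBipartiteGraph (Fin (n / 2)) (Fin ((n + 1) / 2))) ∧
    (4 ≤ n → ∀ G : SimpleGraph (Fin n), (4 : ℕ∞) ≤ G.egirth → numCycles G = maxCycles n 4 →
      Nonempty (G ≃g completeBipartiteGraph (Fin (n / 2)) (Fin ((n + 1) / 2)))) := by
  classical
  have h1 := two_max n
  have h2 := gg_eq n n le_rfl
  refine ⟨?_, ?_, ?_⟩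
  · have h3 : (2 * maxCycles n 4 : ℚ) = gg n := by exact_mod_cast h1
    have h4 := hh_eq (n / 2) n (n / 2) ((n + 1) / 2) le_rfl (by omega)
    rw [← h4] at h2
    have h5 : ∑ k ∈ Finset.Icc 2 (n / 2),
        ((n / 2).descFactorial k * ((n + 1) / 2).descFactorial k : ℚ) / (2 * k) =
        hh (n / 2) (n / 2) ((n + 1) / 2) / 2 := by
      rw [hh, Finset.sum_div]
      apply Finset.sum_congr rfl
      intro k _
      rw [div_div, mul_comm (2 : ℚ)]
    rw [h5, ← h2, ← h3]
    ring
  · have h3 := two_bip (n / 2) ((n + 1) / 2) n (by omega)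
    rw [← h2] at h3
    have h4 : 2 * numCycles (completeBipartiteGraph (Fin (n / 2)) (Fin ((n + 1) / 2))) = gg n := by
      exact_mod_cast h3
    omega
  · intro hn G hG hmax
    apply iso_of_good
    have hG' : ((4 : ℕ) : ℕ∞) ≤ G.egirth := by exact_mod_cast hG
    apply good_of_eq (triangle_free hG') n hn Finset.univ (by simp)
    rw [nc_univ, hmax, h1]

end Pool.Agent.Helper86.TF
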