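import Pool.Agent.Helper86.TF.Bip

/-!
# Triangle-free graphs with the largest number of cycles
-/

namespace Pool.Agent.Helper86.TF

open SimpleGraph Finset Pool.Agent.Helper72.Cyc

variable {V : Type*} {G : SimpleGraph V}

open scoped Classical in
/-- The number of neighbours of `v` in `S`. -/
noncomputable def dg (G : SimpleGraph V) (S : Finset V) (v : V) : ℕ :=
  #{w ∈ S.erase v | G.Adj v w}

open scoped Classical in
lemma filt_erase (S : Finset V) (v x : V) (hx : x ∈ S.erase v) (hvx : G.Adj v x) :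
    #{y ∈ (S.erase v).erase x | G.Adj y v} = dg G S v - 1 := by
  have : ({y ∈ (S.erase v).erase x | G.Adj y v} : Finset V) =
      ({w ∈ S.erase v | G.Adj v w}).erase x := by
    ext y
    rw [Finset.mem_filter, Finset.mem_erase, Finset.mem_erase, Finset.mem_erase,
      Finset.mem_filter, Finset.mem_erase, G.adj_comm y v]
    tauto
  rw [this, Finset.card_erase_of_mem (Finset.mem_filter.2 ⟨hx, hvx⟩), dg]

open scoped Classical in
lemma zz_le (S : Finset V) (v : V) (M : ℕ)
    (hM : ∀ x ∈ S.erase v, ∀ y ∈ (S.erase v).erase x,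
      pc G (((S.erase v).erase x).erase y) x y ≤ M) :
    zz G S v ≤ dg G S v * (dg G S v - 1) * M := by
  rw [zz, mul_assoc]
  have h0 : #{w ∈ S.erase v | G.Adj v w} = dg G S v := rfl
  have h1 := Finset.sum_le_card_nsmul ({x ∈ S.erase v | G.Adj v x})
    (fun x => ∑ y ∈ (S.erase v).erase x with G.Adj y v,
      pc G (((S.erase v).erase x).erase y) x y) ((dg G S v - 1) * M) (by
    intro x hx
    rw [Finset.mem_filter] at hx
    have h2 := Finset.sum_le_card_nsmul ({y ∈ (S.erase v).erase x | G.Adj y v})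
      (fun y => pc G (((S.erase v).erase x).erase y) x y) M (by
      intro y hy
      rw [Finset.mem_filter] at hy
      exact hM x hx.1 y hy.1)
    rw [filt_erase S v x hx.1 hx.2, smul_eq_mul] at h2
    exact h2)
  rw [h0, smul_eq_mul] at h1
  exact h1

open scoped Classical in
lemma zz_eq (S : Finset V) (v : V) (M : ℕ)
    (hM : ∀ x ∈ S.erase v, G.Adj v x → ∀ y ∈ (S.erase v).erase x, G.Adj v y →
      pc G (((S.erase v).erase x).erase y) x y = M) :
    zz G S v = dg G S v * (dg G S v - 1) * M := by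
  have h0 : #{w ∈ S.erase v | G.Adj v w} = dg G S v := rfl
  rw [zz, mul_assoc, ← h0, ← smul_eq_mul, ← Finset.sum_const]
  apply Finset.sum_congr rfl
  intro x hx
  rw [Finset.mem_filter] at hx
  rw [h0, ← filt_erase S v x hx.1 hx.2, ← smul_eq_mul, ← Finset.sum_const]
  apply Finset.sum_congr rfl
  intro y hy
  rw [Finset.mem_filter] at hy
  exact hM x hx.1 hx.2 y hy.1 hy.2.symm

open scoped Classical in
lemma exists_even (hT : ∀ x y z, G.Adj x y → G.Adj y z → ¬ G.Adj x z) (m : ℕ) (hm : 1 ≤ m)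
    (S : Finset V) (hS : #S = 2 * m) : ∃ v ∈ S, dg G S v ≤ m := by
  by_cases h : ∃ u ∈ S, ∃ v ∈ S, G.Adj u v
  · obtain ⟨u, hu, v, hv, huv⟩ := h
    have h1 : Disjoint ({w ∈ S.erase u | G.Adj u w} : Finset V) {w ∈ S.erase v | G.Adj v w} := by
      rw [Finset.disjoint_left]
      intro w hw hw'
      rw [Finset.mem_filter] at hw hw'
      exact hT u v w huv hw'.2 hw.2
    have h2 : dg G S u + dg G S v ≤ #S := by
      rw [dg, dg, ← Finset.card_union_of_disjoint h1]
      apply Finset.card_le_card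
      apply Finset.union_subset
      · exact (Finset.filter_subset _ _).trans (Finset.erase_subset _ _)
      · exact (Finset.filter_subset _ _).trans (Finset.erase_subset _ _)
    by_cases h3 : dg G S u ≤ m
    · exact ⟨u, hu, h3⟩
    · exact ⟨v, hv, by omega⟩
  · push Not at h
    obtain ⟨v, hv⟩ : S.Nonempty := Finset.card_pos.1 (by omega)
    refine ⟨v, hv, ?_⟩
    have : dg G S v = 0 := by
      rw [dg, Finset.card_eq_zero]
      apply Finset.filter_eq_empty_iff.2
      intro w hw
      exact h v hv w (Finset.mem_of_mem_erase hw)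
    omega

open scoped Classical in
lemma exists_odd (hT : ∀ x y z, G.Adj x y → G.Adj y z → ¬ G.Adj x z) (m : ℕ)
    (S : Finset V) (hS : #S = 2 * m + 1)
    (hc : ¬ ∃ s : V → Bool, ∀ a ∈ S, ∀ b ∈ S, G.Adj a b → s a ≠ s b) :
    ∃ v ∈ S, 5 * dg G S v ≤ 4 * m + 2 := by
  by_contra hcon
  push Not at hcon
  apply hc
  obtain ⟨v0, hv0⟩ : S.Nonempty := Finset.card_pos.1 (by omega)
  have : Nonempty {x // x ∈ S} := ⟨⟨v0, hv0⟩⟩
  set H : SimpleGraph {x // x ∈ S} := G.comap Subtype.val with hH
  have hadj : ∀ a b, H.Adj a b ↔ G.Adj a b := fun a b => Iff.rfl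
  have hcol : H.Colorable 2 := by
    apply colorable_of_cliqueFree_lt_minDegree (r := 2)
    · intro t ht
      rw [show 2 + 1 = 3 from rfl, is3Clique_iff] at ht
      obtain ⟨a, b, c, hab, hac, hbc, -⟩ := ht
      exact hT a b c hab hbc hac
    · obtain ⟨v, hv⟩ := H.exists_minimal_degree_vertex
      rw [hv]
      have hdeg : H.degree v = dg G S v := by
        rw [dg, ← SimpleGraph.card_neighborFinset_eq_degree]
        apply Finset.card_bij (fun (w : {x // x ∈ S}) _ => (w : V))
        · intro w hw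
          rw [mem_neighborFinset, hadj] at hw
          rw [Finset.mem_filter, Finset.mem_erase]
          exact ⟨⟨hw.ne.symm, w.2⟩, hw⟩
        · intro a _ b _ hab
          exact Subtype.ext hab
        · intro w hw
          rw [Finset.mem_filter, Finset.mem_erase] at hw
          refine ⟨⟨w, hw.1.2⟩, ?_, rfl⟩
          rw [mem_neighborFinset, hadj]
          exact hw.2
      rw [hdeg]
      have h1 := hcon v v.2
      have h2 : Fintype.card {x // x ∈ S} = 2 * m + 1 := by
        rw [Fintype.card_coe, hS]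
      rw [h2]
      omega
  obtain ⟨c⟩ := hcol
  refine ⟨fun x => if h : x ∈ S then decide (c ⟨x, h⟩ = 0) else false, ?_⟩
  intro a ha b hb hab
  have h1 : c ⟨a, ha⟩ ≠ c ⟨b, hb⟩ := c.valid ((hadj ⟨a, ha⟩ ⟨b, hb⟩).2 hab)
  show (if h : a ∈ S then decide (c ⟨a, h⟩ = 0) else false) ≠
    (if h : b ∈ S then decide (c ⟨b, h⟩ = 0) else false)
  rw [dif_pos ha, dif_pos hb]
  generalize c ⟨a, ha⟩ = i at h1
  generalize c ⟨b, hb⟩ = j at h1
  revert h1
  revert i j
  decide

open scoped Classical in
/-- There is a vertex in few cycles. -/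
lemma exists_vertex (hT : ∀ x y z, G.Adj x y → G.Adj y z → ¬ G.Adj x z) (n : ℕ) (S : Finset V)
    (hS : #S = n + 1) : ∃ v ∈ S, zz G S v ≤ Q ((n + 1) / 2) (n / 2) := by
  rcases Nat.even_or_odd' n with ⟨m, rfl | rfl⟩
  · have e1 : (2 * m + 1) / 2 = m := by omega
    have e2 : 2 * m / 2 = m := by omega
    rw [e1, e2]
    by_cases hc : ∃ s : V → Bool, ∀ a ∈ S, ∀ b ∈ S, G.Adj a b → s a ≠ s b
    · obtain ⟨s, hs⟩ := hc
      have hadd := cl_card_add s S true
      obtain ⟨b, hb⟩ : ∃ b, m + 1 ≤ #(cl s S b) := by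
        by_cases h : m + 1 ≤ #(cl s S true)
        · exact ⟨true, h⟩
        · refine ⟨false, ?_⟩
          have e3 : (!true) = false := rfl
          rw [e3] at hadd
          omega
      have hadd' := cl_card_add s S b
      obtain ⟨v, hv⟩ : (cl s S b).Nonempty := Finset.card_pos.1 (by omega)
      rw [mem_cl] at hv
      refine ⟨v, hv.1, ?_⟩
      refine (zz_mono G (Kb s) S hs v hv.1).trans ?_
      rw [zz_kb s S v hv.1, hv.2]
      apply Q_le <;> omega
    · obtain ⟨v, hv, hd⟩ := exists_odd hT m S hS hc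
      refine ⟨v, hv, ?_⟩
      refine (zz_le S v (EE (m - 1)) ?_).trans (d_even m _ hd)
      intro x hx y hy
      have c1 := Finset.card_erase_add_one hv
      have c2 := Finset.card_erase_add_one hx
      have c3 := Finset.card_erase_add_one hy
      apply pc_even hT
      omega
  · have e1 : (2 * m + 1 + 1) / 2 = m + 1 := by omega
    have e2 : (2 * m + 1) / 2 = m := by omega
    rw [e1, e2]
    obtain ⟨v, hv, hd⟩ := exists_even hT (m + 1) (by omega) S (by omega)
    refine ⟨v, hv, ?_⟩
    refine (zz_le S v (TT (m + 1 - 2)) ?_).trans (d_odd (m + 1) _ (by omega) hd)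
    intro x hx y hy
    have c1 := Finset.card_erase_add_one hv
    have c2 := Finset.card_erase_add_one hx
    have c3 := Finset.card_erase_add_one hy
    apply pc_odd hT
    omega

open scoped Classical in
/-- The upper bound for the number of cycles of a triangle-free graph. -/
theorem two_nc_le [Fintype V] (hT : ∀ x y z, G.Adj x y → G.Adj y z → ¬ G.Adj x z) (n : ℕ) :
    ∀ (S : Finset V), #S = n → 2 * nc G S ≤ gg n := by
  induction n with
  | zero =>
    intro S hS
    rw [Finset.card_eq_zero.1 hS, nc_empty]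
    simp
  | succ n ih =>
    intro S hS
    obtain ⟨v, hv, hz⟩ := exists_vertex hT n S hS
    have c1 := Finset.card_erase_add_one hv
    have h1 := ih (S.erase v) (by omega)
    rw [nc_rec S v hv, gg_succ]
    omega

/-- `G` restricted to `S` is a balanced complete bipartite graph. -/
def Good (G : SimpleGraph V) (S : Finset V) (n : ℕ) : Prop :=
  ∃ (s : V → Bool) (b : Bool), (∀ x ∈ S, ∀ y ∈ S, (G.Adj x y ↔ s x ≠ s y)) ∧
    #(cl s S b) = n / 2 ∧ #(cl s S (!b)) = (n + 1) / 2

lemma q_pos (a b : ℕ) (ha : 1 ≤ a) : 1 ≤ q a b := by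
  rw [q_eq]
  have : 1 ≤ 1 + b * q (a - 1) (b - 1) := by omega
  calc 1 = 1 * 1 := rfl
    _ ≤ _ := Nat.mul_le_mul ha this

open scoped Classical in
lemma base_four [Fintype V] (hT : ∀ x y z, G.Adj x y → G.Adj y z → ¬ G.Adj x z)
    (S : Finset V) (hS : #S = 4) (h : 2 * nc G S = gg 4) : Good G S 4 := by
  obtain ⟨v, hv⟩ : S.Nonempty := Finset.card_pos.1 (by omega)
  have c1 := Finset.card_erase_add_one hv
  have h1 := two_nc_le hT 3 (S.erase v) (by omega)
  have h2 := nc_rec (G := G) S v hv
  have e3 : gg 3 = 0 := by decide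
  have e4 : gg 4 = 2 := by decide
  have hz : zz G S v ≠ 0 := by omega
  rw [zz] at hz
  obtain ⟨x, hx, hx'⟩ := Finset.exists_ne_zero_of_sum_ne_zero hz
  obtain ⟨y, hy, hy'⟩ := Finset.exists_ne_zero_of_sum_ne_zero hx'
  rw [Finset.mem_filter] at hx hy
  have c2 := Finset.card_erase_add_one hx.1
  have c3 := Finset.card_erase_add_one hy.1
  obtain ⟨w, hw⟩ := Finset.card_eq_one.1 (show #(((S.erase v).erase x).erase y) = 1 by omega)
  rw [hw] at hy'
  have hwm : w ∈ ((S.erase v).erase x).erase y := by rw [hw]; exact Finset.mem_singleton_self w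
  rw [Finset.mem_erase, Finset.mem_erase, Finset.mem_erase] at hwm
  obtain ⟨hwy, hwx, hwv, hwS⟩ := hwm
  have hxv : x ≠ v := (Finset.mem_erase.1 hx.1).1
  have hyx : y ≠ x := (Finset.mem_erase.1 hy.1).1
  have hyv : y ≠ v := (Finset.mem_erase.1 (Finset.mem_erase.1 hy.1).2).1
  have hvx : G.Adj v x := hx.2
  have hvy : G.Adj v y := hy.2.symm
  have nxy : ¬ G.Adj x y := hT x v y hvx.symm hvy
  have hpath : G.Adj x w ∧ G.Adj w y := by
    rw [pc_rec, if_neg nxy, zero_add, Finset.filter_singleton] at hy'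
    have he : pc G (({w} : Finset V).erase w) w y = if G.Adj w y then 1 else 0 := by
      rw [pc_rec]; simp
    by_cases h1 : G.Adj x w
    · rw [if_pos h1, Finset.sum_singleton, he] at hy'
      by_cases h2 : G.Adj w y
      · exact ⟨h1, h2⟩
      · rw [if_neg h2] at hy'; exact absurd rfl hy'
    · rw [if_neg h1, Finset.sum_empty] at hy'; exact absurd rfl hy'
  obtain ⟨hxw, hwy'⟩ := hpath
  have nvw : ¬ G.Adj v w := hT v x w hvx hxw
  have hSmem : ∀ u, u ∈ S ↔ u = v ∨ u = x ∨ u = y ∨ u = w := by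
    intro u
    constructor
    · intro hu
      by_cases h1 : u = v
      · exact Or.inl h1
      by_cases h2 : u = x
      · exact Or.inr (Or.inl h2)
      by_cases h3 : u = y
      · exact Or.inr (Or.inr (Or.inl h3))
      have : u ∈ ((S.erase v).erase x).erase y :=
        Finset.mem_erase.2 ⟨h3, Finset.mem_erase.2 ⟨h2, Finset.mem_erase.2 ⟨h1, hu⟩⟩⟩
      rw [hw, Finset.mem_singleton] at this
      exact Or.inr (Or.inr (Or.inr this))
    · rintro (rfl | rfl | rfl | rfl)
      · exact hv
      · exact Finset.mem_of_mem_erase hx.1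
      · exact Finset.mem_of_mem_erase (Finset.mem_of_mem_erase hy.1)
      · exact hwS
  obtain ⟨s, sv, sx, sy, sw, hc⟩ : ∃ s : V → Bool, s v = false ∧ s x = true ∧ s y = true ∧
      s w = false ∧ cl s S true = {x, y} := by
    refine ⟨fun u => decide (u = x ∨ u = y), by simp [hxv.symm, hyv.symm], by simp, by simp,
      by simp [hwx, hwy], ?_⟩
    ext u
    rw [mem_cl, hSmem, Finset.mem_insert, Finset.mem_singleton, decide_eq_true_iff]
    tauto
  have h2 := cl_card_add s S true
  have h3 : #(cl s S true) = 2 := by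
    rw [hc, Finset.card_pair hyx.symm]
  refine ⟨s, true, ?_, by omega, by omega⟩
  intro a ha b hb
  rw [hSmem] at ha hb
  have nyx : ¬ G.Adj y x := fun h => nxy h.symm
  have nwv : ¬ G.Adj w v := fun h => nvw h.symm
  rcases ha with rfl | rfl | rfl | rfl <;> rcases hb with rfl | rfl | rfl | rfl <;>
    simp only [sv, sx, sy, sw, hvx, hvx.symm, hvy, hvy.symm, hxw, hxw.symm, hwy', hwy'.symm,
      nxy, nvw, nyx, nwv, SimpleGraph.irrefl, ne_eq, not_true_eq_false, reduceCtorEq,
      not_false_eq_true]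

end Pool.Agent.Helper86.TF
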