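import Pool.Agent.Helper86.TF.Bound

/-!
# Numerical facts
-/

namespace Pool.Agent.Helper86.TF

open Finset

/-- Number of paths between two vertices of the same side, with `α` possible interior vertices on
the other side and `β` on the same side. -/
def q : ℕ → ℕ → ℕ
  | 0, _ => 0
  | a + 1, 0 => a + 1
  | a + 1, b + 1 => (a + 1) * (1 + (b + 1) * q a b)

/-- Twice the number of cycles through a vertex with `a` vertices on the other side and `b`
further vertices on the same side. -/
def Q : ℕ → ℕ → ℕ
  | 0, _ => 0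
  | _ + 1, 0 => 0
  | a + 1, b + 1 => (a + 1) * (b + 1) * (a + Q a b)

/-- Twice the number of cycles of the balanced complete bipartite graph. -/
def gg (n : ℕ) : ℕ := ∑ i ∈ Finset.range n, Q ((i + 1) / 2) (i / 2)

lemma gg_succ (n : ℕ) : gg (n + 1) = gg n + Q ((n + 1) / 2) (n / 2) := by
  rw [gg, Finset.sum_range_succ, gg]

lemma Q_zero (a : ℕ) : Q a 0 = 0 := by cases a <;> rfl

lemma q_zero (a : ℕ) : q a 0 = a := by cases a <;> rfl

lemma q_eq (a b : ℕ) : q a b = a * (1 + b * q (a - 1) (b - 1)) := by
  cases a with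
  | zero => simp [q]
  | succ a =>
    cases b with
    | zero => simp [q]
    | succ b => simp [q]

lemma Q_eq (a : ℕ) : ∀ b, Q a b = a * (a - 1) * q b (a - 2) := by
  induction a with
  | zero => intro b; simp [Q]
  | succ a ih =>
    intro b
    cases b with
    | zero => simp [Q, q]
    | succ b =>
      rw [Q, ih]
      cases a with
      | zero => simp
      | succ a =>
        simp only [Nat.add_sub_cancel]
        cases a with
        | zero => simp [q_zero]
        | succ a =>
          have e1 : a + 1 + 1 + 1 - 2 = a + 1 := by omega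
          have e2 : a + 1 + 1 - 2 = a := by omega
          rw [e1, e2, q]
          ring

lemma Q_TT (k : ℕ) : Q (k + 2) (k + 1) = (k + 2) * (k + 1) * TT k := by
  induction k with
  | zero => simp [Q, TT]
  | succ k ih =>
    rw [Q, ih, TT]
    ring

lemma Q_le (m : ℕ) : ∀ p s, p + s = 2 * m → p ≤ m → Q p s ≤ Q m m := by
  induction m with
  | zero =>
    intro p s h1 h2
    have : p = 0 := by omega
    subst this
    simp [Q]
  | succ m ih =>
    intro p s h1 h2
    cases p with
    | zero => simp [Q]
    | succ p =>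
      cases s with
      | zero => simp [Q]
      | succ s =>
        rw [Q, Q]
        apply Nat.mul_le_mul
        · obtain ⟨t, ht⟩ := Nat.exists_eq_add_of_le h2
          have hs : s + 1 = m + 1 + t := by omega
          have hm : m + 1 = p + 1 + t := ht
          rw [hs, hm]
          nlinarith
        · exact Nat.add_le_add (by omega) (ih p s (by omega) (by omega))

lemma Q_EE (k : ℕ) : 2 * ((k + 3) * (k + 3)) * EE (k + 2) ≤ 3 * Q (k + 3) (k + 3) := by
  induction k with
  | zero => decide
  | succ k ih =>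
    rw [Q]
    rw [show k + 1 + 2 = k + 3 from rfl, EE]
    have h1 : 2 * (k + 3 + 1) * (k + 3 + 1) * ((k + 3) * (1 + (k + 3) * EE (k + 2))) ≤
        (k + 3 + 1) * (k + 3 + 1) * (3 * (k + 3) + 3 * Q (k + 3) (k + 3)) := by
      have h2 : 2 * ((k + 3) * (1 + (k + 3) * EE (k + 2))) ≤
          3 * (k + 3) + 3 * Q (k + 3) (k + 3) := by nlinarith
      calc 2 * (k + 3 + 1) * (k + 3 + 1) * ((k + 3) * (1 + (k + 3) * EE (k + 2)))
          = (k + 3 + 1) * (k + 3 + 1) * (2 * ((k + 3) * (1 + (k + 3) * EE (k + 2)))) := by ring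
        _ ≤ _ := Nat.mul_le_mul_left _ h2
    calc 2 * ((k + 1 + 3) * (k + 1 + 3)) * ((k + 3) * (1 + (k + 3) * EE (k + 2)))
        = 2 * (k + 3 + 1) * (k + 3 + 1) * ((k + 3) * (1 + (k + 3) * EE (k + 2))) := by ring
      _ ≤ _ := h1
      _ = _ := by ring

lemma d_even (m d : ℕ) (hd : 5 * d ≤ 4 * m + 2) : d * (d - 1) * EE (m - 1) ≤ Q m m := by
  match m, hd with
  | 0, hd =>
    have : d = 0 := by omega
    subst this; simp
  | 1, hd =>
    have : d = 0 ∨ d = 1 := by omega
    rcases this with rfl | rfl <;> simp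
  | 2, hd =>
    have : d = 0 ∨ d = 1 ∨ d = 2 := by omega
    rcases this with rfl | rfl | rfl <;> decide
  | k + 3, hd =>
    have h1 := Q_EE k
    have e1 : k + 3 - 1 = k + 2 := rfl
    rw [e1]
    have h2 : 25 * (d * (d - 1)) ≤ 16 * ((k + 3) * (k + 3)) := by
      cases d with
      | zero => simp
      | succ d =>
        simp only [Nat.add_sub_cancel]
        nlinarith
    have h3 : 25 * (d * (d - 1)) * EE (k + 2) ≤ 16 * ((k + 3) * (k + 3)) * EE (k + 2) :=
      Nat.mul_le_mul_right _ h2
    have h4 : 16 * ((k + 3) * (k + 3)) * EE (k + 2) =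
        8 * (2 * ((k + 3) * (k + 3)) * EE (k + 2)) := by ring
    have h5 : 25 * (d * (d - 1)) * EE (k + 2) = 25 * (d * (d - 1) * EE (k + 2)) := by ring
    omega

lemma d_odd (m d : ℕ) (hm : 1 ≤ m) (hd : d ≤ m) : d * (d - 1) * TT (m - 2) ≤ Q m (m - 1) := by
  match m, hm, hd with
  | 1, _, hd =>
    have : d = 0 ∨ d = 1 := by omega
    rcases this with rfl | rfl <;> simp
  | k + 2, _, hd =>
    have e1 : k + 2 - 2 = k := rfl
    have e2 : k + 2 - 1 = k + 1 := rfl
    rw [e1, e2, Q_TT]
    apply Nat.mul_le_mul_right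
    exact Nat.mul_le_mul hd (by omega)

/-- `Q` off the diagonal. -/
lemma Q_lt (a : ℕ) (ha : 1 ≤ a) : Q a (a + 1) < Q (a + 1) a := by
  induction a, ha using Nat.le_induction with
  | base => decide
  | succ a ha ih =>
    rw [Q, Q]
    have h1 : (a + 1) * (a + 1 + 1) * (a + Q a (a + 1)) <
        (a + 1) * (a + 1 + 1) * (a + 1 + Q (a + 1) a) :=
      Nat.mul_lt_mul_of_pos_left (by omega) (by positivity)
    calc (a + 1) * (a + 1 + 1) * (a + Q a (a + 1)) < _ := h1
      _ = _ := by ring

/-- `h N a b` is twice the number of cycles of a complete bipartite graph with parts of sizes `a`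
and `b`, when `N` is large. -/
def hh (N a b : ℕ) : ℚ :=
  ∑ k ∈ Finset.Icc 2 N, (a.descFactorial k * b.descFactorial k : ℚ) / k

lemma hh_symm (N a b : ℕ) : hh N a b = hh N b a := by
  rw [hh, hh]
  apply Finset.sum_congr rfl
  intro k _
  rw [mul_comm]

lemma hh_zero (N b : ℕ) : hh N 0 b = 0 := by
  rw [hh]
  apply Finset.sum_eq_zero
  intro k hk
  rw [Finset.mem_Icc] at hk
  have : Nat.descFactorial 0 k = 0 := Nat.descFactorial_eq_zero_iff_lt.2 (by omega)
  rw [this]; simp

lemma hh_eq (N N' a b : ℕ) (h : a ≤ N) (h' : N ≤ N') : hh N a b = hh N' a b := by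
  rw [hh, hh]
  apply Finset.sum_subset
  · intro k hk
    rw [Finset.mem_Icc] at hk ⊢
    omega
  · intro k hk hk'
    rw [Finset.mem_Icc] at hk hk'
    have : Nat.descFactorial a k = 0 := Nat.descFactorial_eq_zero_iff_lt.2 (by omega)
    rw [this]; simp

lemma Q_sum (a : ℕ) : ∀ b N, a ≤ N →
    (Q a b : ℚ) = ∑ k ∈ Finset.range (N - 1), (a.descFactorial (k + 2) : ℚ) *
      b.descFactorial (k + 1) := by
  induction a with
  | zero =>
    intro b N _
    symm
    rw [Q]
    push_cast
    apply Finset.sum_eq_zero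
    intro k _
    simp
  | succ a ih =>
    intro b N hN
    cases b with
    | zero =>
      symm
      rw [Q_zero]
      push_cast
      apply Finset.sum_eq_zero
      intro k _
      simp
    | succ b =>
      rw [Q]
      obtain ⟨M, rfl⟩ : ∃ M, N = M + 1 := ⟨N - 1, by omega⟩
      rw [Nat.add_sub_cancel]
      have e1 : ∀ k, ((a + 1).descFactorial (k + 2) : ℚ) * (b + 1).descFactorial (k + 1) =
          ((a : ℚ) + 1) * (b + 1) * (a.descFactorial (k + 1) * b.descFactorial k) := by
        intro k
        rw [Nat.succ_descFactorial_succ, Nat.succ_descFactorial_succ]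
        push_cast
        ring
      simp only [e1]
      rw [← Finset.mul_sum]
      push_cast
      congr 1
      rcases Nat.eq_zero_or_pos M with rfl | hM
      · have : a = 0 := by omega
        subst this
        simp [Q]
      · obtain ⟨L, rfl⟩ : ∃ L, M = L + 1 := ⟨M - 1, by omega⟩
        rw [Finset.sum_range_succ']
        rw [ih b (L + 1) (by omega)]
        simp
        ring

lemma hh_succ (N a b : ℕ) (h : a ≤ N) : hh N a (b + 1) = hh N a b + Q a b := by
  rw [Q_sum a b N h, hh, hh]
  have e0 : ∀ F : ℕ → ℚ, ∑ k ∈ Finset.Icc 2 N, F k = ∑ k ∈ Finset.range (N - 1), F (k + 2) := by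
    intro F
    apply Finset.sum_nbij' (fun k => k - 2) (fun k => k + 2)
    · intro k hk
      rw [Finset.mem_Icc] at hk
      rw [Finset.mem_range]; omega
    · intro k hk
      rw [Finset.mem_range] at hk
      rw [Finset.mem_Icc]; omega
    · intro k hk
      rw [Finset.mem_Icc] at hk
      omega
    · intro k _; omega
    · intro k hk
      rw [Finset.mem_Icc] at hk
      congr 1
      omega
  rw [e0, e0, ← Finset.sum_add_distrib]
  apply Finset.sum_congr rfl
  intro k _
  have e1 : ((b + 1).descFactorial (k + 2) : ℚ) = b.descFactorial (k + 2) +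
      (k + 2) * b.descFactorial (k + 1) := by
    rw [Nat.succ_descFactorial_succ]
    by_cases hb : k + 1 ≤ b
    · have : ((b.descFactorial (k + 2) : ℕ) : ℚ) = ((b : ℚ) - (k + 1)) *
          b.descFactorial (k + 1) := by
        rw [Nat.descFactorial_succ b (k + 1)]
        push_cast [Nat.cast_sub hb]
        ring
      rw [this]
      push_cast
      ring
    · have h1 : b.descFactorial (k + 1) = 0 := Nat.descFactorial_eq_zero_iff_lt.2 (by omega)
      have h2 : b.descFactorial (k + 2) = 0 := Nat.descFactorial_eq_zero_iff_lt.2 (by omega)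
      rw [h1, h2]; simp
  rw [e1]
  have h2 : ((k + 2 : ℕ) : ℚ) ≠ 0 := by positivity
  field_simp
  push_cast
  ring

lemma gg_eq (n : ℕ) : ∀ N, n ≤ N → (gg n : ℚ) = hh N (n / 2) ((n + 1) / 2) := by
  induction n with
  | zero => intro N _; simp [gg, hh_zero]
  | succ n ih =>
    intro N hN
    rw [gg_succ]
    push_cast
    rw [ih N (by omega)]
    rcases Nat.even_or_odd' n with ⟨m, rfl | rfl⟩
    · have e1 : 2 * m / 2 = m := by omega
      have e2 : (2 * m + 1) / 2 = m := by omega
      have e3 : (2 * m + 1 + 1) / 2 = m + 1 := by omega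
      rw [e1, e2, e3, hh_succ N m m (by omega)]
    · have e1 : (2 * m + 1) / 2 = m := by omega
      have e2 : (2 * m + 1 + 1) / 2 = m + 1 := by omega
      have e3 : (2 * m + 1 + 1 + 1) / 2 = m + 1 := by omega
      rw [e1, e2, e3, hh_symm N m (m + 1), hh_succ N (m + 1) m (by omega)]

end Pool.Agent.Helper86.TF
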