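import Pool.Agent.Helper86.TF.Seq

/-!
# Counting paths by their number of interior vertices
-/

namespace Pool.Agent.Helper86.TF

open SimpleGraph Finset Pool.Agent.Helper72.Cyc

open scoped Classical in
/-- Number of paths from `x` to `y` with exactly `j` interior vertices, all of them in `U`. -/
noncomputable def pa {V : Type*} (G : SimpleGraph V) : ℕ → Finset V → V → V → ℕ
  | 0, _, x, y => if G.Adj x y then 1 else 0
  | j + 1, U, x, y => ∑ v ∈ U with G.Adj x v, pa G j (U.erase v) v y

/-- `x, f 0, ..., f (j-1), y` is a walk. -/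
def Ch {V : Type*} (G : SimpleGraph V) : (j : ℕ) → V → (Fin j → V) → V → Prop
  | 0, x, _, y => G.Adj x y
  | j + 1, x, f, y => G.Adj x (f 0) ∧ Ch G j (f 0) (Fin.tail f) y

variable {V : Type*} {G : SimpleGraph V}

open scoped Classical in
lemma card_ch [Fintype V] (j : ℕ) : ∀ (U : Finset V) (x y : V),
    #{f : Fin j → V | Function.Injective f ∧ (∀ i, f i ∈ U) ∧ Ch G j x f y} = pa G j U x y := by
  induction j with
  | zero =>
    intro U x y
    by_cases h : G.Adj x y
    · simp only [pa, h, if_true]
      rw [Finset.card_eq_one]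
      refine ⟨Fin.elim0, ?_⟩
      ext f
      simp only [Finset.mem_filter, Finset.mem_univ, true_and, Finset.mem_singleton]
      constructor
      · intro _; exact Subsingleton.elim _ _
      · intro _; exact ⟨Function.injective_of_subsingleton f, fun i => i.elim0, h⟩
    · simp only [pa, h, if_false]
      rw [Finset.card_eq_zero]
      ext f
      simp only [Finset.mem_filter, Finset.mem_univ, true_and, Finset.notMem_empty, iff_false]
      rintro ⟨-, -, h'⟩
      exact h h'
  | succ j ih =>
    intro U x y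
    have hmaps : Set.MapsTo (fun f : Fin (j + 1) → V => f 0)
        (({f | Function.Injective f ∧ (∀ i, f i ∈ U) ∧ Ch G (j + 1) x f y} :
          Finset (Fin (j + 1) → V)) : Set (Fin (j + 1) → V))
        (({v ∈ U | G.Adj x v} : Finset V) : Set V) := by
      intro f hf
      rw [Finset.mem_coe, Finset.mem_filter] at hf
      rw [Finset.mem_coe, Finset.mem_filter]
      exact ⟨hf.2.2.1 0, hf.2.2.2.1⟩
    rw [Finset.card_eq_sum_card_fiberwise hmaps, pa]
    apply Finset.sum_congr rfl
    intro v hv
    rw [Finset.mem_filter] at hv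
    rw [← ih (U.erase v) v y]
    apply Finset.card_nbij' (fun f => Fin.tail f) (fun g => Fin.cons v g)
    · intro f hf
      simp only [Finset.coe_filter, Finset.mem_filter, Finset.mem_univ, true_and,
        Set.mem_ofPred_eq] at hf ⊢
      obtain ⟨⟨h1, h2, h3, h4⟩, h5⟩ := hf
      refine ⟨fun a b hab => Fin.succ_injective _ (h1 hab), fun i => ?_, ?_⟩
      · refine Finset.mem_erase.2 ⟨?_, h2 _⟩
        rw [← h5]
        intro h
        exact Fin.succ_ne_zero i (h1 h)
      · rw [← h5]; exact h4
    · intro g hg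
      simp only [Finset.coe_filter, Finset.mem_filter, Finset.mem_univ, true_and,
        Set.mem_ofPred_eq] at hg ⊢
      obtain ⟨h1, h2, h3⟩ := hg
      refine ⟨⟨?_, ?_, ?_, ?_⟩, ?_⟩
      · rw [Fin.cons_injective_iff]
        refine ⟨?_, h1⟩
        rintro ⟨i, hi⟩
        exact (Finset.mem_erase.1 (h2 i)).1 hi
      · intro i
        refine Fin.cases ?_ (fun i => ?_) i
        · simpa using hv.1
        · simpa using Finset.mem_of_mem_erase (h2 i)
      · simpa using hv.2
      · simpa using h3
      · simp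
    · intro f hf
      simp only [Finset.coe_filter, Finset.mem_filter, Finset.mem_univ, true_and,
        Set.mem_ofPred_eq] at hf
      rw [← hf.2]
      exact Fin.cons_self_tail f
    · intro g hg
      exact Fin.tail_cons (α := fun _ => V) v g

lemma ch_iff (j : ℕ) : ∀ (x : V) (f : Fin j → V) (y : V), Ch G j x f y ↔
    (∀ i : Fin j, G.Adj ((Fin.cons x f : Fin (j + 1) → V) i.castSucc)
      ((Fin.cons x f : Fin (j + 1) → V) i.succ)) ∧
    G.Adj ((Fin.cons x f : Fin (j + 1) → V) (Fin.last j)) y := by
  induction j with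
  | zero =>
    intro x f y
    simp [Ch]
  | succ j ih =>
    intro x f y
    rw [Ch, ih, Fin.cons_self_tail]
    constructor
    · rintro ⟨h1, h2, h3⟩
      refine ⟨fun i => ?_, ?_⟩
      · refine Fin.cases ?_ (fun i => ?_) i
        · simpa using h1
        · rw [← Fin.succ_castSucc, Fin.cons_succ, Fin.cons_succ]
          exact h2 i
      · rw [← Fin.succ_last, Fin.cons_succ]; exact h3
    · rintro ⟨h1, h2⟩
      refine ⟨by simpa using h1 0, fun i => ?_, ?_⟩
      · have := h1 i.succ
        rw [← Fin.succ_castSucc, Fin.cons_succ, Fin.cons_succ] at this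
        exact this
      · rw [← Fin.succ_last, Fin.cons_succ] at h2; exact h2

lemma cyc_iff_ch (m : ℕ) (f : Fin (m + 3) → V) :
    (∀ i, G.Adj (f i) (f (i + 1))) ↔ Ch G (m + 2) (f 0) (Fin.tail f) (f 0) := by
  rw [ch_iff, Fin.cons_self_tail]
  constructor
  · intro h
    refine ⟨fun i => ?_, ?_⟩
    · have := h i.castSucc
      rwa [Fin.coeSucc_eq_succ] at this
    · have := h (Fin.last (m + 2))
      rwa [Fin.last_add_one] at this
  · rintro ⟨h1, h2⟩ i
    refine Fin.lastCases ?_ (fun i => ?_) i
    · rw [Fin.last_add_one]; exact h2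
    · rw [Fin.coeSucc_eq_succ]; exact h1 i

open scoped Classical in
lemma cycSeq_eq_pa [Fintype V] (S : Finset V) (v : V) (hv : v ∈ S) (m : ℕ) :
    cycSeq G S v m = pa G (m + 2) (S.erase v) v v := by
  rw [cycSeq, ← card_ch]
  apply Finset.card_nbij' (fun f => Fin.tail f) (fun g => Fin.cons v g)
  · intro f hf
    simp only [Finset.coe_filter, Finset.mem_univ, true_and, Set.mem_ofPred_eq] at hf ⊢
    obtain ⟨h1, h2, h3, h4⟩ := hf
    refine ⟨fun a b hab => Fin.succ_injective _ (h1 hab), fun i => ?_, ?_⟩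
    · refine Finset.mem_erase.2 ⟨?_, h4 _⟩
      rw [← h3]
      intro h
      exact Fin.succ_ne_zero i (h1 h)
    · rw [cyc_iff_ch, h3] at h2
      exact h2
  · intro g hg
    simp only [Finset.coe_filter, Finset.mem_univ, true_and, Set.mem_ofPred_eq] at hg ⊢
    obtain ⟨h1, h2, h3⟩ := hg
    refine ⟨?_, ?_, ?_, ?_⟩
    · rw [Fin.cons_injective_iff]
      refine ⟨?_, h1⟩
      rintro ⟨i, hi⟩
      exact (Finset.mem_erase.1 (h2 i)).1 hi
    · rw [cyc_iff_ch, Fin.tail_cons, Fin.cons_zero]
      exact h3
    · simp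
    · intro i
      refine Fin.cases ?_ (fun i => ?_) i
      · simpa using hv
      · simpa using Finset.mem_of_mem_erase (h2 i)
  · intro f hf
    simp only [Finset.coe_filter, Finset.mem_univ, true_and, Set.mem_ofPred_eq] at hf
    rw [← hf.2.2.1]
    exact Fin.cons_self_tail f
  · intro g hg
    exact Fin.tail_cons (α := fun _ => V) v g

open scoped Classical in
lemma pa_eq_zero (j : ℕ) : ∀ (U : Finset V) (x y : V), #U < j → pa G j U x y = 0 := by
  induction j with
  | zero => intro U x y h; omega
  | succ j ih =>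
    intro U x y h
    rw [pa]
    apply Finset.sum_eq_zero
    intro v hv
    rw [Finset.mem_filter] at hv
    apply ih
    rw [Finset.card_erase_of_mem hv.1]
    have : 0 < #U := Finset.card_pos.2 ⟨v, hv.1⟩
    omega

open scoped Classical in
lemma sum_swap (U : Finset V) (x y : V) (F : V → V → ℕ) :
    ∑ v ∈ U with G.Adj x v, ∑ w ∈ U.erase v with G.Adj w y, F v w =
    ∑ w ∈ U with G.Adj w y, ∑ v ∈ U.erase w with G.Adj x v, F v w := by
  rw [Finset.sum_sigma', Finset.sum_sigma']
  apply Finset.sum_nbij' (fun p => ⟨p.2, p.1⟩) (fun p => ⟨p.2, p.1⟩)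
  · rintro ⟨v, w⟩ h
    simp only [Finset.mem_sigma, Finset.mem_filter, Finset.mem_erase] at h ⊢
    exact ⟨⟨h.2.1.2, h.2.2⟩, ⟨⟨fun h' => h.2.1.1 h'.symm, h.1.1⟩, h.1.2⟩⟩
  · rintro ⟨w, v⟩ h
    simp only [Finset.mem_sigma, Finset.mem_filter, Finset.mem_erase] at h ⊢
    exact ⟨⟨h.2.1.2, h.2.2⟩, ⟨⟨fun h' => h.2.1.1 h'.symm, h.1.1⟩, h.1.2⟩⟩
  · rintro ⟨v, w⟩ h; rfl
  · rintro ⟨v, w⟩ h; rfl
  · rintro ⟨v, w⟩ h; rfl

open scoped Classical in
lemma pa_succ_right (j : ℕ) : ∀ (U : Finset V) (x y : V),
    pa G (j + 1) U x y = ∑ w ∈ U with G.Adj w y, pa G j (U.erase w) x w := by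
  induction j with
  | zero =>
    intro U x y
    simp only [pa]
    rw [Finset.sum_filter, Finset.sum_filter]
    apply Finset.sum_congr rfl
    intro v _
    by_cases h1 : G.Adj x v <;> by_cases h2 : G.Adj v y <;> simp [h1, h2]
  | succ j ih =>
    intro U x y
    have e1 : pa G (j + 1 + 1) U x y =
        ∑ v ∈ U with G.Adj x v, ∑ w ∈ U.erase v with G.Adj w y,
          pa G j ((U.erase v).erase w) v w := by
      rw [pa]
      apply Finset.sum_congr rfl
      intro v _
      rw [ih]
    rw [e1, sum_swap]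
    apply Finset.sum_congr rfl
    intro w _
    rw [pa]
    apply Finset.sum_congr rfl
    intro v _
    rw [Finset.erase_right_comm]

/-- Number of paths from `x` to `y` with all interior vertices in `U`. -/
noncomputable def pc (G : SimpleGraph V) (U : Finset V) (x y : V) : ℕ :=
  ∑ i ∈ Finset.range (#U + 1), pa G i U x y

lemma pc_eq (U : Finset V) (x y : V) (N : ℕ) (hN : #U < N) :
    ∑ i ∈ Finset.range N, pa G i U x y = pc G U x y := by
  rw [pc]
  symm
  apply Finset.sum_subset
  · intro i hi
    rw [Finset.mem_range] at hi ⊢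
    omega
  · intro i _ hi
    rw [Finset.mem_range] at hi
    exact pa_eq_zero i U x y (by omega)

open scoped Classical in
lemma pc_rec (U : Finset V) (x y : V) :
    pc G U x y = (if G.Adj x y then 1 else 0) +
      ∑ v ∈ U with G.Adj x v, pc G (U.erase v) v y := by
  rw [pc, Finset.sum_range_succ']
  rw [add_comm]
  congr 1
  have e1 : ∀ i, pa G (i + 1) U x y = ∑ v ∈ U with G.Adj x v, pa G i (U.erase v) v y := by
    intro i; rw [pa]
  simp only [e1]
  rw [Finset.sum_comm]
  apply Finset.sum_congr rfl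
  intro v hv
  rw [Finset.mem_filter] at hv
  apply pc_eq
  rw [Finset.card_erase_of_mem hv.1]
  have : 0 < #U := Finset.card_pos.2 ⟨v, hv.1⟩
  omega

/-- Number of cycles with all vertices in `S`. -/
noncomputable def nc [Fintype V] (G : SimpleGraph V) (S : Finset V) : ℕ :=
  ∑ k ∈ Finset.Icc 3 (Fintype.card V), cyc G S k

open scoped Classical in
lemma nc_univ [Fintype V] : nc G (Finset.univ : Finset V) = numCycles G := by
  rw [nc, numCycles]
  apply Finset.sum_congr rfl
  intro k _
  rw [cyc, SimpleGraph.copyCount]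
  congr 1
  ext H
  simp

lemma nc_eq [Fintype V] (S : Finset V) :
    nc G S = ∑ m ∈ Finset.range (Fintype.card V - 2), cyc G S (m + 3) := by
  rw [nc]
  apply Finset.sum_nbij' (fun k => k - 3) (fun m => m + 3)
  · intro k hk
    rw [Finset.mem_Icc] at hk
    rw [Finset.mem_range]; omega
  · intro m hm
    rw [Finset.mem_range] at hm
    rw [Finset.mem_Icc]; omega
  · intro k hk
    rw [Finset.mem_Icc] at hk
    omega
  · intro m _; omega
  · intro k hk
    rw [Finset.mem_Icc] at hk
    congr 1
    omega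

open scoped Classical in
/-- Twice the number of cycles through `v` inside `S`. -/
noncomputable def zz (G : SimpleGraph V) (S : Finset V) (v : V) : ℕ :=
  ∑ x ∈ S.erase v with G.Adj v x, ∑ y ∈ (S.erase v).erase x with G.Adj y v,
    pc G (((S.erase v).erase x).erase y) x y

open scoped Classical in
lemma nc_rec [Fintype V] (S : Finset V) (v : V) (hv : v ∈ S) :
    2 * nc G S = 2 * nc G (S.erase v) + zz G S v := by
  have h1 : 2 * nc G S = 2 * nc G (S.erase v) +
      ∑ m ∈ Finset.range (Fintype.card V - 2), pa G (m + 2) (S.erase v) v v := by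
    rw [nc_eq, nc_eq, Finset.mul_sum, Finset.mul_sum, ← Finset.sum_add_distrib]
    apply Finset.sum_congr rfl
    intro m _
    rw [cyc_insert G S v m, cycSeq_eq_pa S v hv]
  rw [h1, zz]
  congr 1
  have e1 : ∀ m, pa G (m + 2) (S.erase v) v v = ∑ x ∈ S.erase v with G.Adj v x,
      ∑ y ∈ (S.erase v).erase x with G.Adj y v, pa G m (((S.erase v).erase x).erase y) x y := by
    intro m
    rw [pa]
    apply Finset.sum_congr rfl
    intro x _
    rw [pa_succ_right]
  simp only [e1]
  rw [Finset.sum_comm]
  apply Finset.sum_congr rfl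
  intro x hx
  rw [Finset.sum_comm]
  apply Finset.sum_congr rfl
  intro y hy
  rw [Finset.mem_filter] at hx hy
  apply pc_eq
  have c1 : #(((S.erase v).erase x).erase y) + 1 = #((S.erase v).erase x) :=
    Finset.card_erase_add_one hy.1
  have c2 : #((S.erase v).erase x) + 1 = #(S.erase v) := Finset.card_erase_add_one hx.1
  have c3 : #(S.erase v) + 1 = #S := Finset.card_erase_add_one hv
  have c4 : #S ≤ Fintype.card V := Finset.card_le_univ S
  omega

end Pool.Agent.Helper86.TF
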