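import Pool.Agent.Helper72.Cyc.Basic

/-!
# Cycles through a vertex and cyclic sequences
-/

namespace Pool.Agent.Helper86.TF

open SimpleGraph Finset Pool.Agent.Helper72.Cyc

/-- The subgraph spanned by a cyclic sequence. -/
def cycSub {V : Type*} (G : SimpleGraph V) {m : ℕ} (f : Fin (m + 3) → V)
    (hadj : ∀ i, G.Adj (f i) (f (i + 1))) : G.Subgraph where
  verts := Set.range f
  Adj a b := ∃ i, (f i = a ∧ f (i + 1) = b) ∨ (f i = b ∧ f (i + 1) = a)
  adj_sub := by
    rintro a b ⟨i, ⟨rfl, rfl⟩ | ⟨rfl, rfl⟩⟩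
    · exact hadj i
    · exact (hadj i).symm
  edge_vert := by
    rintro a b ⟨i, ⟨rfl, rfl⟩ | ⟨rfl, rfl⟩⟩
    · exact ⟨i, rfl⟩
    · exact ⟨i + 1, rfl⟩
  symm := ⟨by
    rintro a b ⟨i, h | h⟩
    · exact ⟨i, Or.inr h⟩
    · exact ⟨i, Or.inl h⟩⟩

lemma cycSub_iso {V : Type*} {G : SimpleGraph V} {m : ℕ} {f : Fin (m + 3) → V}
    (hf : Function.Injective f) (hadj : ∀ i, G.Adj (f i) (f (i + 1))) :
    Nonempty (cycleGraph (m + 3) ≃g (cycSub G f hadj).coe) := by
  refine ⟨⟨Equiv.ofInjective f hf, ?_⟩⟩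
  intro a b
  show (cycSub G f hadj).Adj (f a) (f b) ↔ _
  rw [cyc_adj_iff]
  constructor
  · rintro ⟨i, ⟨h1, h2⟩ | ⟨h1, h2⟩⟩
    · left; rw [← hf h1, ← hf h2]
    · right; rw [← hf h1, ← hf h2]
  · rintro (h | h)
    · exact ⟨a, Or.inl ⟨rfl, by rw [h]⟩⟩
    · exact ⟨b, Or.inr ⟨rfl, by rw [h]⟩⟩

/-- Every subgraph isomorphic to a cycle, with a marked vertex, comes from a sequence. -/
lemma exists_seq {V : Type*} {G : SimpleGraph V} {m : ℕ} (H : G.Subgraph)
    (e : cycleGraph (m + 3) ≃g H.coe) (v : V) (hv : v ∈ H.verts) :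
    ∃ (f : Fin (m + 3) → V) (_hf : Function.Injective f)
      (hadj : ∀ i, G.Adj (f i) (f (i + 1))), f 0 = v ∧ cycSub G f hadj = H := by
  set i0 : Fin (m + 3) := e.symm ⟨v, hv⟩ with hi0
  have hH : ∀ i, H.Adj (e (i0 + i) : V) (e (i0 + (i + 1)) : V) := by
    intro i
    have : (cycleGraph (m + 3)).Adj (i0 + i) (i0 + (i + 1)) := by
      rw [cyc_adj_iff]; left; rw [add_assoc]
    exact e.map_rel_iff.2 this
  refine ⟨fun i => (e (i0 + i) : V), ?_, fun i => H.adj_sub (hH i), ?_, ?_⟩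
  · intro a b hab
    exact add_left_cancel (e.injective (Subtype.ext hab))
  · show (e (i0 + 0) : V) = v
    rw [add_zero, hi0, RelIso.apply_symm_apply]
  · apply Subgraph.ext
    · show Set.range (fun i => (e (i0 + i) : V)) = H.verts
      ext w
      constructor
      · rintro ⟨i, rfl⟩; exact (e (i0 + i)).2
      · intro hw
        refine ⟨e.symm ⟨w, hw⟩ - i0, ?_⟩
        show (e (i0 + (e.symm ⟨w, hw⟩ - i0)) : V) = w
        rw [add_sub_cancel, RelIso.apply_symm_apply]
    · ext a b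
      constructor
      · rintro ⟨i, ⟨rfl, rfl⟩ | ⟨rfl, rfl⟩⟩
        · exact hH i
        · exact (hH i).symm
      · intro hab
        have ha := H.edge_vert hab
        have hb := H.edge_vert hab.symm
        have hab' : H.coe.Adj ⟨a, ha⟩ ⟨b, hb⟩ := hab
        rw [← e.symm.map_rel_iff, cyc_adj_iff] at hab'
        rcases hab' with h | h
        · have h' : e.symm ⟨a, ha⟩ + 1 = e.symm ⟨b, hb⟩ := h
          refine ⟨e.symm ⟨a, ha⟩ - i0, Or.inl ⟨?_, ?_⟩⟩
          · show (e (i0 + (e.symm ⟨a, ha⟩ - i0)) : V) = a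
            rw [add_sub_cancel, RelIso.apply_symm_apply]
          · show (e (i0 + (e.symm ⟨a, ha⟩ - i0 + 1)) : V) = b
            rw [← add_assoc, add_sub_cancel, h', RelIso.apply_symm_apply]
        · have h' : e.symm ⟨b, hb⟩ + 1 = e.symm ⟨a, ha⟩ := h
          refine ⟨e.symm ⟨b, hb⟩ - i0, Or.inr ⟨?_, ?_⟩⟩
          · show (e (i0 + (e.symm ⟨b, hb⟩ - i0)) : V) = b
            rw [add_sub_cancel, RelIso.apply_symm_apply]
          · show (e (i0 + (e.symm ⟨b, hb⟩ - i0 + 1)) : V) = a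
            rw [← add_assoc, add_sub_cancel, h', RelIso.apply_symm_apply]

/-- Two cyclic sequences with the same subgraph and the same first vertex agree up to reversal. -/
lemma seq_unique {V : Type*} {G : SimpleGraph V} {m : ℕ} {f g : Fin (m + 3) → V}
    (hf : Function.Injective f) (hfa : ∀ i, G.Adj (f i) (f (i + 1)))
    (hg : Function.Injective g) (hga : ∀ i, G.Adj (g i) (g (i + 1)))
    (h0 : f 0 = g 0) (hs : cycSub G f hfa = cycSub G g hga) :
    g = f ∨ g = fun i => f (-i) := by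
  have key : ∀ i j, f j = g i → (f (j + 1) = g (i + 1) ∨ f (j - 1) = g (i + 1)) := by
    intro i j hij
    have h1 : (cycSub G g hga).Adj (g i) (g (i + 1)) := ⟨i, Or.inl ⟨rfl, rfl⟩⟩
    rw [← hs] at h1
    obtain ⟨l, ⟨h2, h3⟩ | ⟨h2, h3⟩⟩ := h1
    · left
      rw [← hij] at h2
      rw [← hf h2]; exact h3
    · right
      rw [← hij] at h3
      have : l = j - 1 := by rw [← hf h3]; exact (add_sub_cancel_right l 1).symm
      rw [← this]; exact h2
  have hcast : ∀ t : ℕ, Fin.ofNat (m + 3) (t + 1) = Fin.ofNat (m + 3) t + 1 := by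
    intro t; ext; simp [Fin.ofNat, Fin.add_def]
  have hne : ∀ i : Fin (m + 3), i + 1 + 1 ≠ i := by
    intro i h
    have h3 : i + (1 + 1) = i + 0 := by rw [← add_assoc, add_zero]; exact h
    have h4 := congrArg Fin.val (add_left_cancel h3)
    simp [Fin.add_def] at h4
    rw [Nat.mod_eq_of_lt (by omega)] at h4
    omega
  have hall : ∀ i : Fin (m + 3), Fin.ofNat (m + 3) (i : ℕ) = i := by
    intro i; ext; simp [Fin.ofNat]; omega
  rcases key 0 0 h0 with h1 | h1
  · left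
    have hind : ∀ t : ℕ, f (Fin.ofNat (m + 3) t) = g (Fin.ofNat (m + 3) t) ∧
        f ((Fin.ofNat (m + 3) t) + 1) = g ((Fin.ofNat (m + 3) t) + 1) := by
      intro t
      induction t with
      | zero => simpa using ⟨h0, h1⟩
      | succ t ih =>
        rw [hcast]
        refine ⟨ih.2, ?_⟩
        rcases key ((Fin.ofNat (m + 3) t) + 1) ((Fin.ofNat (m + 3) t) + 1) ih.2 with h | h
        · exact h
        · exfalso
          rw [add_sub_cancel_right, ih.1] at h
          exact hne _ (hg h).symm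
    funext i
    have := (hind i).1
    rw [hall] at this
    exact this.symm
  · right
    have hind : ∀ t : ℕ, f (-(Fin.ofNat (m + 3) t)) = g (Fin.ofNat (m + 3) t) ∧
        f (-(Fin.ofNat (m + 3) t) - 1) = g ((Fin.ofNat (m + 3) t) + 1) := by
      intro t
      induction t with
      | zero => simpa using ⟨h0, h1⟩
      | succ t ih =>
        rw [hcast]
        have e1 : -((Fin.ofNat (m + 3) t) + 1) = -(Fin.ofNat (m + 3) t) - 1 := by
          rw [neg_add, ← sub_eq_add_neg]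
        rw [e1]
        refine ⟨ih.2, ?_⟩
        rcases key ((Fin.ofNat (m + 3) t) + 1) (-(Fin.ofNat (m + 3) t) - 1) ih.2 with h | h
        · exfalso
          rw [sub_add_cancel, ih.1] at h
          exact hne _ (hg h).symm
        · exact h
    funext i
    have := (hind i).1
    rw [hall] at this
    exact this.symm

lemma cycSub_neg {V : Type*} {G : SimpleGraph V} {m : ℕ} {f : Fin (m + 3) → V}
    (hfa : ∀ i, G.Adj (f i) (f (i + 1)))
    (hga : ∀ i, G.Adj (f (-i)) (f (-(i + 1)))) :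
    cycSub G (fun i => f (-i)) hga = cycSub G f hfa := by
  have e1 : ∀ i : Fin (m + 3), -(i + 1) + 1 = -i := by
    intro i; rw [neg_add, neg_add_cancel_right]
  apply Subgraph.ext
  · show Set.range (fun i => f (-i)) = Set.range f
    ext w
    constructor
    · rintro ⟨i, rfl⟩; exact ⟨-i, rfl⟩
    · rintro ⟨i, rfl⟩; exact ⟨-i, by show f (- -i) = f i; rw [neg_neg]⟩
  · ext a b
    constructor
    · rintro ⟨i, ⟨h1, h2⟩ | ⟨h1, h2⟩⟩
      · exact ⟨-(i + 1), Or.inr ⟨h2, by rw [e1]; exact h1⟩⟩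
      · exact ⟨-(i + 1), Or.inl ⟨h2, by rw [e1]; exact h1⟩⟩
    · rintro ⟨i, ⟨h1, h2⟩ | ⟨h1, h2⟩⟩
      · refine ⟨-(i + 1), Or.inr ⟨?_, ?_⟩⟩
        · show f (- -(i + 1)) = b
          rw [neg_neg]; exact h2
        · show f (-(-(i + 1) + 1)) = a
          rw [e1, neg_neg]; exact h1
      · refine ⟨-(i + 1), Or.inl ⟨?_, ?_⟩⟩
        · show f (- -(i + 1)) = a
          rw [neg_neg]; exact h2
        · show f (-(-(i + 1) + 1)) = b
          rw [e1, neg_neg]; exact h1

open scoped Classical in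
/-- Number of cycles of length `k` with all vertices in `S`. -/
noncomputable def cyc {V : Type*} [Fintype V] (G : SimpleGraph V) (S : Finset V) (k : ℕ) : ℕ :=
  #{H : G.Subgraph | Nonempty (cycleGraph k ≃g H.coe) ∧ ∀ w ∈ H.verts, w ∈ S}

open scoped Classical in
/-- Number of cyclic sequences with first vertex `v` and all vertices in `S`. -/
noncomputable def cycSeq {V : Type*} [Fintype V] (G : SimpleGraph V) (S : Finset V) (v : V)
    (m : ℕ) : ℕ :=
  #{f : Fin (m + 3) → V | Function.Injective f ∧ (∀ i, G.Adj (f i) (f (i + 1))) ∧ f 0 = v ∧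
    ∀ i, f i ∈ S}

open scoped Classical in
lemma cycSeq_eq {V : Type*} [Fintype V] (G : SimpleGraph V) (S : Finset V) (v : V) (m : ℕ) :
    cycSeq G S v m = 2 * #{H : G.Subgraph | Nonempty (cycleGraph (m + 3) ≃g H.coe) ∧
      (∀ w ∈ H.verts, w ∈ S) ∧ v ∈ H.verts} := by
  set P : (Fin (m + 3) → V) → Prop := fun f => Function.Injective f ∧
    (∀ i, G.Adj (f i) (f (i + 1))) ∧ f 0 = v ∧ ∀ i, f i ∈ S with hP
  set Φ : (Fin (m + 3) → V) → G.Subgraph := fun f =>
    if h : ∀ i, G.Adj (f i) (f (i + 1)) then cycSub G f h else ⊥ with hΦ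
  have hΦ' : ∀ f (h : ∀ i, G.Adj (f i) (f (i + 1))), Φ f = cycSub G f h := by
    intro f h; simp only [hΦ]; rw [dif_pos h]
  have hmaps : Set.MapsTo Φ (({f | P f} : Finset (Fin (m + 3) → V)) : Set (Fin (m + 3) → V))
      (({H | Nonempty (cycleGraph (m + 3) ≃g H.coe) ∧
      (∀ w ∈ H.verts, w ∈ S) ∧ v ∈ H.verts} : Finset G.Subgraph) : Set G.Subgraph) := by
    intro f hf
    rw [Finset.mem_coe, Finset.mem_filter] at hf
    obtain ⟨-, h1, h2, h3, h4⟩ := hf
    rw [Finset.mem_coe, Finset.mem_filter, hΦ' f h2]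
    refine ⟨Finset.mem_univ _, cycSub_iso h1 h2, ?_, ⟨0, h3⟩⟩
    rintro w ⟨i, rfl⟩
    exact h4 i
  rw [cycSeq, Finset.card_eq_sum_card_fiberwise hmaps, Finset.sum_const_nat (m := 2), mul_comm]
  intro H hH
  rw [Finset.mem_filter] at hH
  obtain ⟨-, ⟨e⟩, hHS, hvH⟩ := hH
  obtain ⟨f, hf, hfa, hf0, hfH⟩ := exists_seq H e v hvH
  have hneg : ∀ i, G.Adj (f (-i)) (f (-(i + 1))) := by
    intro i
    have := (hfa (-(i + 1))).symm
    have e1 : -(i + 1) + 1 = -i := by rw [neg_add, neg_add_cancel_right]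
    rwa [e1] at this
  rw [Finset.card_eq_two]
  refine ⟨f, fun i => f (-i), ?_, ?_⟩
  · intro h
    have h1 : f 1 = f (-1) := congrFun h 1
    have h2 := congrArg Fin.val (hf h1)
    have h3 : (1 : Fin (m + 3)) + 1 = 0 := by
      have : (1 : Fin (m + 3)) = -1 := hf h1
      calc (1 : Fin (m + 3)) + 1 = -1 + 1 := by rw [← this]
        _ = 0 := neg_add_cancel 1
    have h4 := congrArg Fin.val h3
    simp [Fin.add_def] at h4
    rw [Nat.mod_eq_of_lt (by omega)] at h4
    omega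
  · ext g
    rw [Finset.mem_filter, Finset.mem_filter, Finset.mem_insert, Finset.mem_singleton]
    constructor
    · rintro ⟨⟨-, h1, h2, h3, h4⟩, h5⟩
      rw [hΦ' g h2, ← hfH] at h5
      exact seq_unique hf hfa h1 h2 (hf0.trans h3.symm) h5.symm
    · rintro (rfl | rfl)
      · refine ⟨⟨Finset.mem_univ _, hf, hfa, hf0, fun i => hHS _ ?_⟩, ?_⟩
        · rw [← hfH]; exact ⟨i, rfl⟩
        · rw [hΦ' _ hfa, hfH]
      · refine ⟨⟨Finset.mem_univ _, ?_, hneg, ?_, fun i => hHS _ ?_⟩, ?_⟩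
        · intro a b hab
          exact neg_injective (hf hab)
        · show f (-0) = v
          rw [neg_zero]; exact hf0
        · rw [← hfH]; exact ⟨-i, rfl⟩
        · rw [hΦ' _ hneg, cycSub_neg hfa hneg, hfH]

open scoped Classical in
lemma cyc_insert {V : Type*} [Fintype V] (G : SimpleGraph V) (S : Finset V) (v : V) (m : ℕ) :
    2 * cyc G S (m + 3) = 2 * cyc G (S.erase v) (m + 3) + cycSeq G S v m := by
  rw [cycSeq_eq, ← mul_add]
  congr 1
  rw [cyc, cyc, ← Finset.card_union_of_disjoint]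
  · congr 1
    ext H
    simp only [Finset.mem_filter, Finset.mem_univ, true_and, Finset.mem_union]
    constructor
    · rintro ⟨h1, h2⟩
      by_cases hv : v ∈ H.verts
      · exact Or.inr ⟨h1, h2, hv⟩
      · exact Or.inl ⟨h1, fun w hw => Finset.mem_erase.2 ⟨fun h => hv (h ▸ hw), h2 w hw⟩⟩
    · rintro (⟨h1, h2⟩ | ⟨h1, h2, -⟩)
      · exact ⟨h1, fun w hw => Finset.mem_of_mem_erase (h2 w hw)⟩
      · exact ⟨h1, h2⟩
  · rw [Finset.disjoint_left]
    intro H h1 h2
    rw [Finset.mem_filter] at h1 h2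
    exact (Finset.mem_erase.1 (h1.2.2 v h2.2.2.2)).1 rfl

end Pool.Agent.Helper86.TF
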