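import Pool.Agent.Helper86.TF.Main

/-!
# Uniqueness of the extremal graph
-/

namespace Pool.Agent.Helper86.TF

open SimpleGraph Finset Pool.Agent.Helper72.Cyc

variable {V : Type*} {G : SimpleGraph V}

open scoped Classical in
/-- The vertex `v` sees one side of a complete bipartite graph only. -/
lemma one_side (hT : ∀ x y z, G.Adj x y → G.Adj y z → ¬ G.Adj x z) (S : Finset V) (v : V)
    (s : V → Bool) (hs : ∀ x ∈ S.erase v, ∀ y ∈ S.erase v, (G.Adj x y ↔ s x ≠ s y)) :
    ∃ b : Bool, ∀ w ∈ S.erase v, G.Adj v w → s w = b := by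
  by_cases h : ∃ w ∈ S.erase v, G.Adj v w
  · obtain ⟨w0, hw0, hvw0⟩ := h
    refine ⟨s w0, fun w hw hvw => ?_⟩
    by_contra hne
    have h1 : G.Adj w w0 := (hs w hw w0 hw0).2 hne
    exact hT w v w0 hvw.symm hvw0 h1
  · push Not at h
    exact ⟨true, fun w hw hvw => absurd hvw (h w hw)⟩

open scoped Classical in
lemma zz_val (S : Finset V) (v : V)
    (s : V → Bool) (hs : ∀ x ∈ S.erase v, ∀ y ∈ S.erase v, (G.Adj x y ↔ s x ≠ s y))
    (b : Bool) (hb : ∀ w ∈ S.erase v, G.Adj v w → s w = b) :
    zz G S v = dg G S v * (dg G S v - 1) *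
      q #(cl s (S.erase v) (!b)) (#(cl s (S.erase v) b) - 2) := by
  apply zz_eq
  intro x hx hvx y hy hvy
  have hy' : y ∈ S.erase v := Finset.mem_of_mem_erase hy
  have hU : ((S.erase v).erase x).erase y ⊆ S.erase v :=
    (Finset.erase_subset _ _).trans (Finset.erase_subset _ _)
  have h1 : pc G (((S.erase v).erase x).erase y) x y =
      pc (Kb s) (((S.erase v).erase x).erase y) x y := by
    apply le_antisymm
    · exact pc_mono G (Kb s) (S.erase v) (fun a ha b hb h => (hs a ha b hb).1 h) _ x y hU hx hy'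
    · exact pc_mono (Kb s) G (S.erase v) (fun a ha b hb h => (hs a ha b hb).2 h) _ x y hU hx hy'
  have sx : s x = b := hb x hx hvx
  have sy : s y = b := hb y hy' hvy
  have hne : b ≠ !b := by cases b <;> decide
  rw [h1, pc_kb s _ _ x y le_rfl (sx.trans sy.symm), sx]
  rw [cl_erase_diff s _ (!b) y (by rw [sy]; exact hne),
    cl_erase_diff s _ (!b) x (by rw [sx]; exact hne),
    cl_erase_same s _ b y hy sy, cl_erase_same s _ b x hx sx, Nat.sub_sub]

open scoped Classical in
lemma dg_le (S : Finset V) (v : V) (s : V → Bool)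
    (b : Bool) (hb : ∀ w ∈ S.erase v, G.Adj v w → s w = b) :
    ({w ∈ S.erase v | G.Adj v w} : Finset V) ⊆ cl s (S.erase v) b := by
  intro w hw
  rw [Finset.mem_filter] at hw
  exact mem_cl.2 ⟨hw.1, hb w hw.1 hw.2⟩

lemma pred_inj (a d : ℕ) (ha : 2 ≤ a) (h : d * (d - 1) = a * (a - 1)) : d = a := by
  have hd : 2 ≤ d := by
    by_contra hcon
    have h0 : d = 0 ∨ d = 1 := by omega
    have h1 : 0 < a * (a - 1) := Nat.mul_pos (by omega) (by omega)
    rcases h0 with rfl | rfl
    · simp at h; omega
    · simp at h; omega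
  obtain ⟨e, rfl⟩ : ∃ e, d = e + 1 := ⟨d - 1, by omega⟩
  obtain ⟨f, rfl⟩ : ∃ f, a = f + 1 := ⟨a - 1, by omega⟩
  simp only [Nat.add_sub_cancel] at h
  rcases lt_trichotomy e f with h1 | h1 | h1
  · nlinarith
  · rw [h1]
  · nlinarith

open scoped Classical in
/-- The case of equality. -/
theorem good_of_eq [Fintype V] (hT : ∀ x y z, G.Adj x y → G.Adj y z → ¬ G.Adj x z) (n : ℕ)
    (hn : 4 ≤ n) : ∀ (S : Finset V), #S = n → 2 * nc G S = gg n → Good G S n := by
  induction n, hn using Nat.le_induction with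
  | base => exact fun S hS h => base_four hT S hS h
  | succ n hn ih =>
    intro S hS h
    obtain ⟨v, hv, hz⟩ := exists_vertex hT n S hS
    have c1 := Finset.card_erase_add_one hv
    have h1 := two_nc_le hT n (S.erase v) (by omega)
    have h2 := nc_rec (G := G) S v hv
    rw [gg_succ] at h
    have h3 : 2 * nc G (S.erase v) = gg n := by omega
    have h4 : zz G S v = Q ((n + 1) / 2) (n / 2) := by omega
    obtain ⟨s, b0, hs, hb1, hb2⟩ := ih (S.erase v) (by omega) h3
    obtain ⟨b, hb⟩ := one_side hT S v s hs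
    have h5 := zz_val S v s hs b hb
    have hsub := dg_le S v s b hb
    have hdle : dg G S v ≤ #(cl s (S.erase v) b) := Finset.card_le_card hsub
    -- the two sizes
    have hsize : (#(cl s (S.erase v) b) = n / 2 ∧ #(cl s (S.erase v) (!b)) = (n + 1) / 2) ∨
        (#(cl s (S.erase v) b) = (n + 1) / 2 ∧ #(cl s (S.erase v) (!b)) = n / 2) := by
      by_cases hbb : b = b0
      · rw [hbb]; exact Or.inl ⟨hb1, hb2⟩
      · have e1 : b = !b0 := by revert hbb; cases b <;> cases b0 <;> decide
        have e2 : (!b) = b0 := by rw [e1]; cases b0 <;> rfl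
        right
        rw [e2, e1]
        exact ⟨hb2, hb1⟩
    have hsize' : #(cl s (S.erase v) b) = (n + 1) / 2 ∧ #(cl s (S.erase v) (!b)) = n / 2 := by
      rcases hsize with ⟨ha, hβ⟩ | h6
      · rcases Nat.even_or_odd' n with ⟨m, rfl | rfl⟩
        · exact ⟨by omega, by omega⟩
        · exfalso
          have e1 : (2 * m + 1 + 1) / 2 = m + 1 := by omega
          have e2 : (2 * m + 1) / 2 = m := by omega
          rw [e1] at h4 hβ
          rw [e2] at h4 ha
          rw [h4, ha, hβ] at h5
          have h7 := Q_lt m (by omega)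
          rw [h5, Q_eq] at h7
          rw [ha] at hdle
          have h8 : dg G S v * (dg G S v - 1) ≤ m * (m - 1) :=
            Nat.mul_le_mul hdle (by omega)
          have h9 := Nat.mul_le_mul_right (q (m + 1) (m - 2)) h8
          omega
      · exact h6
    obtain ⟨ha, hβ⟩ := hsize'
    have hd : dg G S v = (n + 1) / 2 := by
      rw [h4, ha, hβ, Q_eq] at h5
      have h7 := q_pos (n / 2) ((n + 1) / 2 - 2) (by omega)
      have h8 := Nat.eq_of_mul_eq_mul_right (by omega) h5
      exact pred_inj _ _ (by omega) h8.symm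
    have hN : ({w ∈ S.erase v | G.Adj v w} : Finset V) = cl s (S.erase v) b := by
      apply Finset.eq_of_subset_of_card_le hsub
      rw [ha, ← hd, dg]
    have hvN : ∀ w ∈ S.erase v, (G.Adj v w ↔ s w = b) := by
      intro w hw
      constructor
      · exact fun h => hb w hw h
      · intro h
        have : w ∈ cl s (S.erase v) b := mem_cl.2 ⟨hw, h⟩
        rw [← hN, Finset.mem_filter] at this
        exact this.2
    set s' : V → Bool := Function.update s v (!b) with hs'
    have hs'v : s' v = !b := by rw [hs', Function.update_self]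
    have hs'w : ∀ w, w ≠ v → s' w = s w := by
      intro w hw; rw [hs', Function.update_of_ne hw]
    have hne : b ≠ !b := by cases b <;> decide
    have hiff : ∀ c : Bool, c = b ↔ (!b) ≠ c := by intro c; cases b <;> cases c <;> decide
    have hcl1 : cl s' S b = cl s (S.erase v) b := by
      ext w
      rw [mem_cl, mem_cl, Finset.mem_erase]
      by_cases hw : w = v
      · subst hw
        rw [hs'v]
        constructor
        · rintro ⟨-, h⟩; exact absurd h.symm hne
        · rintro ⟨⟨h, -⟩, -⟩; exact absurd rfl h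
      · rw [hs'w w hw]; tauto
    refine ⟨s', b, ?_, ?_, ?_⟩
    · intro x hx y hy
      by_cases hxv : x = v
      · by_cases hyv : y = v
        · rw [hxv, hyv]; simp
        · rw [hxv, hs'v, hs'w y hyv, hvN y (Finset.mem_erase.2 ⟨hyv, hy⟩)]
          exact hiff _
      · by_cases hyv : y = v
        · rw [hyv, hs'v, hs'w x hxv, G.adj_comm, hvN x (Finset.mem_erase.2 ⟨hxv, hx⟩), hiff,
            ne_comm]
        · rw [hs'w x hxv, hs'w y hyv]
          exact hs x (Finset.mem_erase.2 ⟨hxv, hx⟩) y (Finset.mem_erase.2 ⟨hyv, hy⟩)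
    · rw [hcl1, ha]
    · have h8 := cl_card_add s' S b
      rw [hcl1, ha] at h8
      omega

end Pool.Agent.Helper86.TF
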